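import Mathlib

/-!
# H35K: the algebra of supersingular cyclotomic towers (definitions)

O is a commutative ring, p a prime number such that O/p is a field with q elements. R is the module of global classes, W the module of
local classes (the same for all places above p), both O-modules of p-power torsion with an O-linear operator (gam, del: the action of a
topological generator of the Galois group of the cyclotomic Z_p-extension). The classes of level n are those fixed by gam^(p^n).
D n is the module of the local classes of points of level n. See PROOF.md.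
-/

namespace H35K

/-- J p n is the integral part of p^n/(p+1). -/
def J (p n : ℕ) : ℕ := p ^ n / (p + 1)

/-- The norm from level n + 1 to level n: the sum of the powers f^(i p^n), i < p. -/
def nrm {O Z : Type} [CommRing O] [AddCommGroup Z] [Module O Z] (p n : ℕ) (f : Z →ₗ[O] Z) : Z →ₗ[O] Z :=
  ∑ i ∈ Finset.range p, f ^ (i * p ^ n)

/-- z is of level n. -/
def Lev {O Z : Type} [CommRing O] [AddCommGroup Z] [Module O Z] (p n : ℕ) (f : Z →ₗ[O] Z) (z : Z) : Prop :=
  (f ^ p ^ n) z = z

/-- The data of a tower: g is the number of places above p. -/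
structure Tow {O R W : Type} [CommRing O] [AddCommGroup R] [Module O R] [AddCommGroup W] [Module O W]
    (p q g : ℕ) (gam : R →ₗ[O] R) (del : W →ₗ[O] W) (loc : Fin g → R →ₗ[O] W) (D : ℕ → Submodule O W) : Prop where
  pr : p.Prime
  odd : 3 ≤ p
  gpos : 0 < g
  max : (Ideal.span {(p : O)}).IsMaximal
  card : Nat.card (O ⧸ Ideal.span {(p : O)}) = q
  q2 : 2 ≤ q
  comm : ∀ v r, loc v (gam r) = del (loc v r)
  torR : ∀ r : R, ∃ k : ℕ, p ^ k • r = 0
  torW : ∀ w : W, ∃ k : ℕ, p ^ k • w = 0
  -- the local module: there are at most q^2 classes of level 0 killed by p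
  w0f : Finite {w : W // p • w = 0 ∧ del w = w}
  w0 : Nat.card {w : W // p • w = 0 ∧ del w = w} ≤ q ^ 2
  -- the classes of points
  dlev : ∀ n, ∀ w ∈ D n, Lev p n del w
  dmono : ∀ n, D n ≤ D (n + 1)
  dst : ∀ n, ∀ w ∈ D n, del w ∈ D n
  dnrm : ∀ n, ∀ w ∈ D (n + 1), nrm p n del w ∈ D n
  ddiv : ∀ n, ∀ w ∈ D n, ∃ w' ∈ D n, p • w' = w
  dp : ∀ n, Nat.card {w : W // w ∈ D n ∧ p • w = 0} = q ^ p ^ n
  ds : ∀ n, ∀ w : W, (w ∈ D 0 ∧ p • w = 0) ↔
    ∃ w' ∈ D n, p • w' = 0 ∧ ((del - 1) ^ (p ^ n - 1 - J p n)) w' = w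
  -- the global module: the classes of level n are at least as many as in a cofree module of rank g, and divisible;
  -- at level 0 no nonzero class killed by p is everywhere the class of a point
  inj : ∀ r : R, p • r = 0 → gam r = r → (∀ v, loc v r ∈ D 0) → r = 0
  rdim : ∀ n, q ^ (g * p ^ n) ≤ Nat.card {r : R // p • r = 0 ∧ Lev p n gam r}
  rdiv : ∀ n, ∀ r : R, Lev p n gam r → ∃ r' : R, Lev p n gam r' ∧ p • r' = r

/-- The Selmer classes of level n. -/
def Selm {O R W : Type} [CommRing O] [AddCommGroup R] [Module O R] [AddCommGroup W] [Module O W]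
    {g : ℕ} (p : ℕ) (gam : R →ₗ[O] R) (loc : Fin g → R →ₗ[O] W) (D : ℕ → Submodule O W) (n : ℕ) (r : R) : Prop :=
  Lev p n gam r ∧ ∀ v, loc v r ∈ D n

end H35K
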