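import Mathlib
import Pool.Agent.Lib.H35K.Defs

/-! # H35K, chunk A0 (S/M): the numbers J p n -/

namespace H35K

/-- Chunk A0 (S). -/
theorem J_zero {p : ℕ} (hp : 1 ≤ p) : J p 0 = 0 := by
  unfold J
  rw [pow_zero]
  exact Nat.div_eq_of_lt (by omega)

/-- Chunk A0 (S). -/
theorem J_one {p : ℕ} (hp : 1 ≤ p) : J p 1 = 0 := by
  unfold J
  rw [pow_one]
  exact Nat.div_eq_of_lt (by omega)

/-- Chunk A0 (S/M). p^(n+2) = (p+1) (p^(n+1) - p^n) + p^n. -/
theorem J_step {p : ℕ} (hp : 1 ≤ p) (n : ℕ) : J p (n + 2) = (p ^ (n + 1) - p ^ n) + J p n := by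
  unfold J
  have h1 : p ^ n ≤ p ^ (n + 1) := Nat.pow_le_pow_right hp (by omega)
  obtain ⟨c, hc⟩ := Nat.exists_eq_add_of_le h1
  have e : p ^ (n + 2) = (p + 1) * c + p ^ n := by
    have h2 : p ^ (n + 2) = p * p ^ (n + 1) := by ring
    have h3 : p ^ (n + 1) = p * p ^ n := by ring
    rw [h2, hc]
    have h4 : p * p ^ n = p ^ n + c := by rw [← h3, hc]
    calc p * (p ^ n + c) = p * p ^ n + p * c := by ring
      _ = p ^ n + c + p * c := by rw [h4]
      _ = _ := by ring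
  rw [e, Nat.mul_add_div (by omega), hc]
  omega

/-- Chunk A0 (S/M). Induction by J_step: J(n+1) + J(n+2) = J(n+1) + J(n) + p^(n+1) - p^n. -/
theorem J_add {p : ℕ} (hp : 2 ≤ p) (n : ℕ) : J p n + J p (n + 1) = p ^ n - 1 := by
  induction n with
  | zero => rw [J_zero (by omega), J_one (by omega)]; simp
  | succ n ih =>
    rw [J_step (by omega)]
    have h1 : p ^ n ≤ p ^ (n + 1) := Nat.pow_le_pow_right (by omega) (by omega)
    have h2 : 0 < p ^ n := Nat.pow_pos (by omega)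
    omega

/-- Chunk A0 (S/M). (p + 1) J <= p^n and p + 1 >= 4. -/
theorem J_two {p : ℕ} (hp : 3 ≤ p) (n : ℕ) : 2 * J p n + 1 ≤ p ^ n := by
  have h1 : (p + 1) * J p n ≤ p ^ n := Nat.mul_div_le _ _
  have h2 : 0 < p ^ n := Nat.pow_pos (by omega)
  have h3 : 4 * J p n ≤ (p + 1) * J p n := Nat.mul_le_mul_right _ (by omega)
  omega

/-- Chunk A0 (S/M). (p+1) J(n+1) <= p^(n+1) gives J(n+1) < p^n (p^n >= 1), and p^(n+1) - p^n >= 2 p^n. -/
theorem J_phi {p : ℕ} (hp : 3 ≤ p) (n : ℕ) : J p (n + 1) + 1 ≤ p ^ (n + 1) - p ^ n := by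
  have h1 : (p + 1) * J p (n + 1) ≤ p ^ (n + 1) := Nat.mul_div_le _ _
  have h2 : 0 < p ^ n := Nat.pow_pos (by omega)
  have h3 : p ^ (n + 1) = p * p ^ n := by ring
  have h4 : J p (n + 1) < p ^ n := by
    by_contra hc
    push Not at hc
    have h5 : (p + 1) * p ^ n ≤ (p + 1) * J p (n + 1) := Nat.mul_le_mul_left _ hc
    have h6 : (p + 1) * p ^ n = p * p ^ n + p ^ n := by ring
    omega
  have h5 : 3 * p ^ n ≤ p * p ^ n := Nat.mul_le_mul_right _ hp
  omega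

end H35K
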