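import Mathlib
import Pool.Agent.Lib.H35K.Defs

/-! # H35K, chunk A1 (M): counting kernels of powers -/

namespace H35K

/-- The first isomorphism theorem for X^a on ker X^(a+b), counted. -/
theorem a1_fac {V : Type} [AddCommGroup V] (X : AddMonoid.End V) (a b : ℕ) :
    Nat.card {v : V // (X ^ (a + b)) v = 0} =
      Nat.card {v : V // ∃ w : V, (X ^ (a + b)) w = 0 ∧ (X ^ a) w = v} *
        Nat.card {v : V // (X ^ a) v = 0} := by
  have hba : ∀ v : V, (X ^ (a + b)) v = (X ^ b) ((X ^ a) v) := by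
    intro v
    rw [add_comm, pow_add]
    rfl
  let F : V →+ V := X ^ (a + b)
  let G : V →+ V := X ^ a
  let A : AddSubgroup V := AddMonoidHom.ker F
  let φ : A →+ V := G.comp A.subtype
  have h1 : Nat.card A = Nat.card (A ⧸ φ.ker) * Nat.card φ.ker :=
    AddSubgroup.card_eq_card_quotient_mul_card_addSubgroup _
  have h2 : Nat.card (A ⧸ φ.ker) = Nat.card φ.range :=
    Nat.card_congr (QuotientAddGroup.quotientKerEquivRange φ).toEquiv
  have e1 : Nat.card {v : V // (X ^ (a + b)) v = 0} = Nat.card A :=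
    Nat.card_congr (Equiv.subtypeEquivRight (fun v => Iff.rfl))
  have e2 : Nat.card φ.range =
      Nat.card {v : V // ∃ w : V, (X ^ (a + b)) w = 0 ∧ (X ^ a) w = v} := by
    refine Nat.card_congr (Equiv.subtypeEquivRight (fun v => ?_))
    constructor
    · rintro ⟨w, hw⟩
      exact ⟨w.1, w.2, hw⟩
    · rintro ⟨w, hw, hv⟩
      exact ⟨⟨w, hw⟩, hv⟩
  have e3 : Nat.card φ.ker = Nat.card {v : V // (X ^ a) v = 0} := by
    refine Nat.card_congr ⟨fun x => ⟨x.1.1, x.2⟩, fun v => ⟨⟨v.1, ?_⟩, v.2⟩, ?_, ?_⟩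
    · show (X ^ (a + b)) v.1 = 0
      rw [hba, v.2, map_zero]
    · intro x
      rfl
    · intro v
      rfl
  rw [e1, h1, h2, e2, e3]

/-- Bounds of the kernels of the powers. -/
theorem a1_bound {V : Type} [AddCommGroup V] (X : AddMonoid.End V) {c : ℕ}
    (hf : Finite {v : V // X v = 0}) (h1 : Nat.card {v : V // X v = 0} ≤ c) (j : ℕ) :
    Finite {v : V // (X ^ j) v = 0} ∧ Nat.card {v : V // (X ^ j) v = 0} ≤ c ^ j := by
  induction j with
  | zero =>
    have : Unique {v : V // (X ^ 0) v = 0} :=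
      { default := ⟨0, map_zero _⟩
        uniq := fun v => Subtype.ext (show v.1 = 0 from v.2) }
    refine ⟨inferInstance, ?_⟩
    rw [Nat.card_unique, pow_zero]
  | succ j ih =>
    obtain ⟨f0, i0⟩ := ih
    have hfac := a1_fac X j 1
    have hsub : ∀ v : V, (∃ w : V, (X ^ (j + 1)) w = 0 ∧ (X ^ j) w = v) → X v = 0 := by
      rintro v ⟨w, hw, hv⟩
      rw [← hv]
      have : (X ^ (j + 1)) w = X ((X ^ j) w) := by
        rw [pow_succ']
        rfl
      rw [← this, hw]
    have hinj : Function.Injective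
        (fun v : {v : V // ∃ w : V, (X ^ (j + 1)) w = 0 ∧ (X ^ j) w = v} =>
          (⟨v.1, hsub v.1 v.2⟩ : {v : V // X v = 0})) := by
      intro u v huv
      exact Subtype.ext (congrArg (fun z : {v : V // X v = 0} => z.1) huv)
    have f1 : Finite {v : V // ∃ w : V, (X ^ (j + 1)) w = 0 ∧ (X ^ j) w = v} :=
      Finite.of_injective _ hinj
    have c1 : Nat.card {v : V // ∃ w : V, (X ^ (j + 1)) w = 0 ∧ (X ^ j) w = v} ≤ c :=
      (Nat.card_le_card_of_injective _ hinj).trans h1
    have n1 : Nonempty {v : V // ∃ w : V, (X ^ (j + 1)) w = 0 ∧ (X ^ j) w = v} :=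
      ⟨⟨0, 0, map_zero _, map_zero _⟩⟩
    have n0 : Nonempty {v : V // (X ^ j) v = 0} := ⟨⟨0, map_zero _⟩⟩
    refine ⟨?_, ?_⟩
    · apply Nat.finite_of_card_ne_zero
      rw [hfac]
      exact mul_ne_zero Nat.card_pos.ne' Nat.card_pos.ne'
    · rw [hfac]
      refine (Nat.mul_le_mul c1 i0).trans (le_of_eq ?_)
      exact (pow_succ' c j).symm

/-- Chunk A1 (M). X an endomorphism of the abelian group V, ker X has c elements and ker X^P has at least c^P elements. Then for a + b = P:
ker X^b has c^b elements and X^a maps ker X^P onto ker X^b. PROOF. |ker X^(j+1)| <= |ker X^j| |ker X| (X^j maps ker X^(j+1) to ker X with kernel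
ker X^j; first isomorphism theorem, everything is finite by induction), so |ker X^j| <= c^j for all j. X^a maps ker X^P to ker X^b with kernel
ker X^a: c^P <= |ker X^P| = |ker X^a| |image| <= c^a |ker X^b| <= c^a c^b = c^P, so all inequalities are equalities (c > 0), and the image, a subset of the finite
set ker X^b of the same cardinality, is everything. -/
theorem a1 {V : Type} [AddCommGroup V] (X : AddMonoid.End V) {c P : ℕ} (hc : 1 ≤ c)
    (h1 : Nat.card {v : V // X v = 0} = c) (h2 : c ^ P ≤ Nat.card {v : V // (X ^ P) v = 0}) {a b : ℕ} (hab : a + b = P) :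
    Nat.card {v : V // (X ^ b) v = 0} = c ^ b ∧
      ∀ v : V, (X ^ b) v = 0 → ∃ w : V, (X ^ P) w = 0 ∧ (X ^ a) w = v := by
  subst hab
  have hf : Finite {v : V // X v = 0} := Nat.finite_of_card_ne_zero (by omega)
  obtain ⟨fa, ca⟩ := a1_bound X hf h1.le a
  obtain ⟨fb, cb⟩ := a1_bound X hf h1.le b
  have hfac := a1_fac X a b
  have hsub : ∀ v : V, (∃ w : V, (X ^ (a + b)) w = 0 ∧ (X ^ a) w = v) → (X ^ b) v = 0 := by
    rintro v ⟨w, hw, hv⟩
    rw [← hv]
    have : (X ^ (a + b)) w = (X ^ b) ((X ^ a) w) := by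
      rw [add_comm, pow_add]
      rfl
    rw [← this, hw]
  have hinj : Function.Injective
      (fun v : {v : V // ∃ w : V, (X ^ (a + b)) w = 0 ∧ (X ^ a) w = v} =>
        (⟨v.1, hsub v.1 v.2⟩ : {v : V // (X ^ b) v = 0})) := by
    intro u v huv
    exact Subtype.ext (congrArg (fun z : {v : V // (X ^ b) v = 0} => z.1) huv)
  have c1 := Nat.card_le_card_of_injective _ hinj
  have hpow : c ^ (a + b) = c ^ b * c ^ a := by rw [add_comm, pow_add]
  have hca : 0 < c ^ a := Nat.pow_pos (by omega)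
  have key : c ^ b ≤ Nat.card {v : V // ∃ w : V, (X ^ (a + b)) w = 0 ∧ (X ^ a) w = v} := by
    have : c ^ b * c ^ a ≤
        Nat.card {v : V // ∃ w : V, (X ^ (a + b)) w = 0 ∧ (X ^ a) w = v} * c ^ a := by
      rw [← hpow]
      refine h2.trans ?_
      rw [hfac]
      exact Nat.mul_le_mul_left _ ca
    exact Nat.le_of_mul_le_mul_right this hca
  have e : Nat.card {v : V // (X ^ b) v = 0} = c ^ b := le_antisymm cb (key.trans c1)
  refine ⟨e, ?_⟩
  have hbij : Function.Bijective
      (fun v : {v : V // ∃ w : V, (X ^ (a + b)) w = 0 ∧ (X ^ a) w = v} =>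
        (⟨v.1, hsub v.1 v.2⟩ : {v : V // (X ^ b) v = 0})) := by
    have f1 : Finite {v : V // ∃ w : V, (X ^ (a + b)) w = 0 ∧ (X ^ a) w = v} :=
      Finite.of_injective _ hinj
    refine (Nat.bijective_iff_injective_and_card _).2 ⟨hinj, ?_⟩
    exact le_antisymm c1 (by rw [e]; exact key)
  intro v hv
  obtain ⟨⟨u, hu⟩, huv⟩ := hbij.2 ⟨v, hv⟩
  have : u = v := congrArg (fun z : {v : V // (X ^ b) v = 0} => z.1) huv
  rw [← this]
  exact hu

/-- Chunk A1 (M). The same with |ker X| <= c only: then |ker X| = c if P >= 1. -/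
theorem a1_le {V : Type} [AddCommGroup V] (X : AddMonoid.End V) {c P : ℕ} (hc : 1 ≤ c) (hP : 1 ≤ P)
    (hf : Finite {v : V // X v = 0}) (h1 : Nat.card {v : V // X v = 0} ≤ c) (h2 : c ^ P ≤ Nat.card {v : V // (X ^ P) v = 0}) :
    Nat.card {v : V // X v = 0} = c := by
  refine le_antisymm h1 ?_
  have h := (a1_bound X hf le_rfl P).2
  exact (Nat.pow_le_pow_iff_left (by omega)).1 (h2.trans h)

end H35K
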