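import Mathlib
import Pool.Agent.Lib.H35K.A1

/-! # H35K, chunk A2 (M/L): the local lemma modulo p -/

namespace H35K

/-- Chunk A2a (S/M). A finite module killed by p over O, O/p a field with q elements, has q^d elements. PROOF: it is a vector space over the field O/p
(Module.IsTorsionBySet.module or Module.toQuotient...; or induction on the cardinality: for v <> 0 the map O/p -> V, a -> a v is injective since p generates a
maximal ideal, so O v has q elements, and V/(O v) is smaller). -/
theorem a2_card {O : Type} [CommRing O] {p q : ℕ} (hmax : (Ideal.span {(p : O)}).IsMaximal)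
    (hq : Nat.card (O ⧸ Ideal.span {(p : O)}) = q) {V : Type} [AddCommGroup V] [Module O V] [Finite V]
    (hp : ∀ v : V, (p : O) • v = 0) : ∃ d : ℕ, Nat.card V = q ^ d := by
  have htor : Module.IsTorsionBySet O V (Ideal.span {(p : O)} : Set O) := by
    intro v a
    obtain ⟨a, ha⟩ := a
    obtain ⟨c, rfl⟩ := Ideal.mem_span_singleton'.mp ha
    show (c * (p : O)) • v = 0
    rw [mul_smul, hp v, smul_zero]
  letI : Module (O ⧸ Ideal.span {(p : O)}) V := htor.module
  letI : Field (O ⧸ Ideal.span {(p : O)}) := Ideal.Quotient.field _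
  haveI : Module.Finite (O ⧸ Ideal.span {(p : O)}) V := Module.Finite.of_finite
  refine ⟨Module.finrank (O ⧸ Ideal.span {(p : O)}) V, ?_⟩
  rw [← hq]
  exact Module.natCard_eq_pow_finrank

theorem a2_first {A B : Type} [AddCommGroup A] [AddCommGroup B] (f : A →+ B) :
    Nat.card A = Nat.card f.range * Nat.card f.ker := by
  rw [AddSubgroup.card_eq_card_quotient_mul_card_addSubgroup f.ker,
    Nat.card_congr (QuotientAddGroup.quotientKerEquivRange f).toEquiv]

theorem a2_sub {O V : Type} [CommRing O] [AddCommGroup V] [Module O V] (N : Submodule O V) (X : V →ₗ[O] V) :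
    Nat.card N = Nat.card (N.map X) * Nat.card (N ⊓ LinearMap.ker X : Submodule O V) := by
  have h := a2_first (X.comp N.subtype).toAddMonoidHom
  rw [h]
  congr 1
  · refine Nat.card_congr (Equiv.setCongr ?_)
    ext v
    constructor
    · rintro ⟨n, hn⟩
      exact ⟨n, n.2, hn⟩
    · rintro ⟨n, hn, hv⟩
      exact ⟨⟨n, hn⟩, hv⟩
  · refine Nat.card_congr ⟨fun n => ⟨n.1.1, n.1.2, n.2⟩, fun v => ⟨⟨v.1, v.2.1⟩, v.2.2⟩, fun _ => rfl, fun _ => rfl⟩

/-- the underlying additive endomorphism -/
def a2_toEnd {O V : Type} [CommRing O] [AddCommGroup V] [Module O V] (X : V →ₗ[O] V) : AddMonoid.End V :=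
  X.toAddMonoidHom

theorem a2_end {O V : Type} [CommRing O] [AddCommGroup V] [Module O V] (X : V →ₗ[O] V) (n : ℕ) (v : V) :
    (a2_toEnd X ^ n) v = (X ^ n) v := by
  induction n generalizing v with
  | zero => rfl
  | succ n ih =>
    rw [pow_succ, pow_succ]
    show (a2_toEnd X ^ n) (X v) = (X ^ n) (X v)
    exact ih (X v)

/-- Chunk A2 (M/L). V a module killed by p over O with an endomorphism X, |ker X| <= q^2, E in ker X^P a submodule stable under X with q^P
elements, X^s E = E0 with q elements, X E0 = 0, s + J + 1 = P, 2 J + 1 <= P. Then X^(P-J) w is in E for w in ker X^P, and X^s r in E implies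
X^(P-1) r in E0.
PROOF. E_j := X^j E cap ker X, a submodule of ker X, so |E_j| is 1, q or q^2 (a2_card), decreasing in j (X E in E). |X^j E| = |E_j| |X^(j+1) E| (first isomorphism theorem for
X on X^j E). X^s E = E0 is in ker X: E_s = E0, |E_s| = q, |X^(s+1) E| = 1. So the product of |E_j|, 0 <= j <= s, is |E| = q^P = q^(s+1+J), all factors are q or q^2, and
decreasing: exactly J factors are q^2, those with j < J; for J <= j <= s: |E_j| = q and E_s in E_j, so E_j = E0.
(P2) e = X^s r in E, X^(P-1) r = X^J e (P - 1 = s + J), X (X^J e) = X^P r = 0, so it lies in X^J E cap ker X = E_J = E0 (J <= s).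
(P1) |E cap ker X^J| = |E|/|X^J E| = product of |E_j|, j < J, = q^(2J) >= |ker X^J| (a1_bound with c = q^2), so ker X^J is contained in E, and X^(P-J) w is in ker X^J. -/
theorem a2 {O : Type} [CommRing O] {p q : ℕ} (hmax : (Ideal.span {(p : O)}).IsMaximal)
    (hq : Nat.card (O ⧸ Ideal.span {(p : O)}) = q) (hq2 : 2 ≤ q) {V : Type} [AddCommGroup V] [Module O V]
    (hp : ∀ v : V, (p : O) • v = 0) (X : V →ₗ[O] V) {P J s : ℕ} (hs : s + J + 1 = P) (hJ : 2 * J + 1 ≤ P)
    (hf : Finite {v : V // X v = 0}) (h1 : Nat.card {v : V // X v = 0} ≤ q ^ 2)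
    (E E0 : Submodule O V) (hE : ∀ e ∈ E, X e ∈ E) (hE' : ∀ e ∈ E, (X ^ P) e = 0)
    (hEc : Nat.card E = q ^ P) (hEs : E.map (X ^ s) = E0) (hE0 : Nat.card E0 = q) (hE0' : ∀ e ∈ E0, X e = 0) :
    (∀ w : V, (X ^ P) w = 0 → (X ^ (P - J)) w ∈ E) ∧
      ∀ r : V, (X ^ P) r = 0 → (X ^ s) r ∈ E → (X ^ (P - 1)) r ∈ E0 := by
  have hqpos : 0 < q := by omega
  have hEfin : Finite E := by
    refine Nat.finite_of_card_ne_zero ?_
    rw [hEc]
    positivity
  have hEfin' : (E : Set V).Finite := Set.toFinite _
  -- the chain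
  let N : ℕ → Submodule O V := fun j => E.map (X ^ j)
  let F : ℕ → Submodule O V := fun j => N j ⊓ LinearMap.ker X
  have hNsucc : ∀ j, (N j).map X = N (j + 1) := by
    intro j
    show (E.map (X ^ j)).map X = E.map (X ^ (j + 1))
    rw [← Submodule.map_comp]
    congr 1
    rw [pow_succ']
    rfl
  have hNle : ∀ j, N (j + 1) ≤ N j := by
    rintro j v ⟨e, he, rfl⟩
    refine ⟨X e, hE e he, ?_⟩
    rw [pow_succ]
    rfl
  have hN0 : N 0 = E := by
    show E.map (X ^ 0) = E
    ext v
    constructor
    · rintro ⟨e, he, rfl⟩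
      exact he
    · intro hv
      exact ⟨v, hv, rfl⟩
  have hNE : ∀ j, N j ≤ E := by
    intro j
    induction j with
    | zero => exact hN0.le
    | succ j ih => exact (hNle j).trans ih
  have hNfin : ∀ j, Finite (N j) := fun j => (hEfin'.subset (hNE j)).to_subtype
  have hFfin : ∀ j, Finite (F j) := fun j => (hEfin'.subset (inf_le_left.trans (hNE j))).to_subtype
  have hcard : ∀ j, Nat.card (N j) = Nat.card (N (j + 1)) * Nat.card (F j) := by
    intro j
    rw [a2_sub (N j) X, hNsucc]
  have hFd : ∀ j, ∃ d : ℕ, Nat.card (F j) = q ^ d := by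
    intro j
    haveI := hFfin j
    exact a2_card hmax hq (V := F j) (fun v => Subtype.ext (hp v.1))
  choose d hd using hFd
  have hFle : ∀ j, F (j + 1) ≤ F j := fun j => inf_le_inf_right _ (hNle j)
  have hqinj : ∀ a b : ℕ, q ^ a ≤ q ^ b → a ≤ b := fun a b h => (Nat.pow_le_pow_iff_right (by omega)).mp h
  have hdle : ∀ j, d (j + 1) ≤ d j := by
    intro j
    refine hqinj _ _ ?_
    rw [← hd, ← hd]
    haveI := hFfin j
    exact Nat.card_mono (Set.toFinite _) (hFle j)
  have hanti : Antitone d := antitone_nat_of_succ_le hdle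
  have hker : Finite {v : V // X v = 0} := hf
  have hd2 : ∀ j, d j ≤ 2 := by
    intro j
    refine hqinj _ _ ?_
    rw [← hd]
    refine le_trans ?_ h1
    exact Nat.card_mono (s := (F j : Set V)) (t := {v : V | X v = 0}) (@Set.toFinite V {v : V | X v = 0} hker)
      (fun v hv => hv.2)
  have hNs : N s = E0 := hEs
  have hFs : F s = E0 := by
    show N s ⊓ LinearMap.ker X = E0
    rw [hNs]
    exact inf_eq_left.mpr fun e he => hE0' e he
  have hds : d s = 1 := by
    have : q ^ d s = q ^ 1 := by rw [← hd, hFs, hE0, pow_one]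
    exact Nat.pow_right_injective (by omega) this
  have hNs1 : Nat.card (N (s + 1)) = 1 := by
    have h3 : N (s + 1) = ⊥ := by
      rw [← hNsucc, hNs]
      rw [eq_bot_iff]
      rintro v ⟨e, he, rfl⟩
      exact (Submodule.mem_bot O).mpr (hE0' e he)
    rw [h3]
    simp
  have hprod : ∀ j, Nat.card E = q ^ (∑ i ∈ Finset.range j, d i) * Nat.card (N j) := by
    intro j
    induction j with
    | zero => simp [hN0]
    | succ j ih =>
      rw [ih, hcard j, hd, Finset.sum_range_succ, pow_add]
      ring
  have hsum : ∑ i ∈ Finset.range (s + 1), d i = P := by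
    have h3 := hprod (s + 1)
    rw [hNs1, mul_one, hEc] at h3
    exact (Nat.pow_right_injective (by omega) h3).symm
  have hd1 : ∀ j ≤ s, 1 ≤ d j := fun j hj => by
    rw [← hds]
    exact hanti hj
  have hJs : J ≤ s := by omega
  -- the exponents
  have hlow : ∀ j < J, d j = 2 := by
    intro j hj
    by_contra hne
    have hj1 : d j ≤ 1 := by
      have := hd2 j
      omega
    have hb : ∑ i ∈ Finset.range (s + 1), d i ≤ ∑ i ∈ Finset.range (s + 1), (if i < j then 2 else 1) := by
      refine Finset.sum_le_sum fun i _ => ?_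
      split_ifs with hi
      · exact hd2 i
      · exact (hanti (not_lt.mp hi)).trans hj1
    have hc : ∑ i ∈ Finset.range (s + 1), (if i < j then 2 else 1) = s + 1 + j := by
      have : ∀ n, j ≤ n → ∑ i ∈ Finset.range n, (if i < j then 2 else 1) = n + j := by
        intro n hn
        induction n, hn using Nat.le_induction with
        | base =>
          rw [Finset.sum_congr rfl (g := fun _ => 2) (fun i hi => by
            rw [if_pos (Finset.mem_range.mp hi)])]
          simp
          omega
        | succ n hn ih =>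
          rw [Finset.sum_range_succ, ih, if_neg (by omega)]
          omega
      rw [this (s + 1) (by omega)]
    omega
  have hhigh : ∀ j, J ≤ j → j ≤ s → d j = 1 := by
    intro j hj hjs
    by_contra hne
    have hj1 : 2 ≤ d j := by
      have := hd1 j hjs
      omega
    have hb : ∑ i ∈ Finset.range (s + 1), (if i < j + 1 then 2 else 1) ≤ ∑ i ∈ Finset.range (s + 1), d i := by
      refine Finset.sum_le_sum fun i hi => ?_
      split_ifs with hi'
      · exact hj1.trans (hanti (by omega))
      · exact hd1 i (by have := Finset.mem_range.mp hi; omega)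
    have hc : ∑ i ∈ Finset.range (s + 1), (if i < j + 1 then 2 else 1) = s + 1 + (j + 1) := by
      have : ∀ n, j + 1 ≤ n → ∑ i ∈ Finset.range n, (if i < j + 1 then 2 else 1) = n + (j + 1) := by
        intro n hn
        induction n, hn using Nat.le_induction with
        | base =>
          rw [Finset.sum_congr rfl (g := fun _ => 2) (fun i hi => by
            rw [if_pos (Finset.mem_range.mp hi)])]
          simp
          omega
        | succ n hn ih =>
          rw [Finset.sum_range_succ, ih, if_neg (by omega)]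
          omega
      rw [this (s + 1) (by omega)]
    omega
  have hFJ : F J = E0 := by
    have hle : E0 ≤ F J := by
      rw [← hFs]
      exact antitone_nat_of_succ_le hFle hJs
    haveI := hFfin J
    refine (SetLike.coe_injective (Set.eq_of_subset_of_ncard_le hle ?_ (Set.toFinite _))).symm
    have e1 : (F J : Set V).ncard = q := by
      have h4 : Nat.card (F J) = q := by rw [hd, hhigh J le_rfl hJs, pow_one]
      exact h4
    have e2 : (E0 : Set V).ncard = q := hE0
    rw [e1, e2]
  constructor
  · -- P1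
    have hNJ : Nat.card E = q ^ (2 * J) * Nat.card (N J) := by
      rw [hprod J, Finset.sum_congr rfl (g := fun _ => 2) (fun i hi => hlow i (Finset.mem_range.mp hi))]
      simp [mul_comm]
    have hK : Nat.card (E ⊓ LinearMap.ker (X ^ J) : Submodule O V) = q ^ (2 * J) := by
      have h3 := a2_sub E (X ^ J)
      have h4 : Nat.card (E.map (X ^ J)) = Nat.card (N J) := rfl
      rw [h4, hNJ, mul_comm] at h3
      haveI := hNfin J
      have hpos : 0 < Nat.card (N J) := Nat.card_pos
      exact (Nat.eq_of_mul_eq_mul_left hpos h3).symm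
    obtain ⟨hAf, hA⟩ := a1_bound (a2_toEnd X) (c := q ^ 2) hf h1 J
    have hAe : {v : V // ((a2_toEnd X) ^ J) v = 0} ≃ {v : V // (X ^ J) v = 0} := by
      refine Equiv.subtypeEquivRight fun v => ?_
      rw [a2_end X J v]
    have hA' : Nat.card {v : V // (X ^ J) v = 0} ≤ q ^ (2 * J) := by
      rw [pow_mul, ← Nat.card_congr hAe]
      exact hA
    have hfinK : ({v : V | (X ^ J) v = 0} : Set V).Finite := by
      have : Finite {v : V // (X ^ J) v = 0} := Finite.of_equiv _ hAe
      exact @Set.toFinite V {v : V | (X ^ J) v = 0} this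
    have heq : ((E ⊓ LinearMap.ker (X ^ J) : Submodule O V) : Set V) = {v : V | (X ^ J) v = 0} := by
      refine Set.eq_of_subset_of_ncard_le (fun v hv => hv.2) ?_ hfinK
      have e1 : ({v : V | (X ^ J) v = 0} : Set V).ncard ≤ q ^ (2 * J) := hA'
      have e2 : ((E ⊓ LinearMap.ker (X ^ J) : Submodule O V) : Set V).ncard = q ^ (2 * J) := hK
      rw [e2]
      exact e1
    intro w hw
    have hw' : (X ^ (P - J)) w ∈ ({v : V | (X ^ J) v = 0} : Set V) := by
      show (X ^ J) ((X ^ (P - J)) w) = 0
      rw [← Module.End.mul_apply, ← pow_add, show J + (P - J) = P by omega]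
      exact hw
    rw [← heq] at hw'
    exact hw'.1
  · intro r hr he
    have h3 : (X ^ (P - 1)) r = (X ^ J) ((X ^ s) r) := by
      rw [← Module.End.mul_apply, ← pow_add, show J + s = P - 1 by omega]
    rw [← hFJ]
    refine ⟨?_, ?_⟩
    · rw [h3]
      exact ⟨(X ^ s) r, he, rfl⟩
    · show X ((X ^ (P - 1)) r) = 0
      rw [← Module.End.mul_apply, ← pow_succ', show P - 1 + 1 = P by omega]
      exact hr

end H35K
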