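import Mathlib
import Pool.Agent.Lib.H35K.A2

/-! # H35K, chunk A3 (M): the Selmer group modulo p -/

namespace H35K

theorem a3_comm {O : Type} [CommRing O] {V U : Type} [AddCommGroup V] [Module O V] [AddCommGroup U] [Module O U]
    (X : V →ₗ[O] V) (Y : U →ₗ[O] U) (l : U →ₗ[O] V) (h : ∀ u, l (Y u) = X (l u)) (n : ℕ) (u : U) :
    l ((Y ^ n) u) = (X ^ n) (l u) := by
  induction n generalizing u with
  | zero => rfl
  | succ n ih =>
    rw [pow_succ, pow_succ]
    show l ((Y ^ n) (Y u)) = (X ^ n) (X (l u))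
    rw [ih, h]

/-- Chunk A3 (M). U the global module, V the local module, both killed by p, loc v : U -> V commutes with the endomorphisms Y, X. The local data are as in a2.
If r in ker Y and loc v r is in E0 for all v then r = 0; ker Y^P has at least q^(gP) elements. THEN |ker Y^j| = q^(gj) for j <= P, Y^a maps ker Y^P onto
ker Y^b (a + b = P), and for r in ker Y^P: loc v r is in E for all v if and only if Y^J r = 0.
PROOF. ker Y embeds in the product over v of (ker X)/E0 (at most q elements each: |ker X| <= q^2, |E0| = q), so |ker Y| <= q^g; a1_le: |ker Y| = q^g; a1 gives the first two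
claims. If Y^J r = 0 then r = Y^(P-J) r', r' in ker Y^P, loc v r = X^(P-J) loc v r' is in E (a2). Conversely let loc v r be in E for all v and Y^J r <> 0; some s = Y^i r has
Y^J s <> 0, Y^(J+1) s = 0 (Y^P r = 0), and loc v s is in E (E is stable). s = Y^(P-J-1) r', r' in ker Y^P, t = Y^(P-1) r' = Y^J s <> 0, Y t = 0. X^(P-J-1) loc v r' =
loc v s is in E, so by a2 loc v t = X^(P-1) loc v r' is in E0 for all v: t = 0, a contradiction. -/
theorem a3 {O : Type} [CommRing O] {p q : ℕ} (hmax : (Ideal.span {(p : O)}).IsMaximal)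
    (hq : Nat.card (O ⧸ Ideal.span {(p : O)}) = q) (hq2 : 2 ≤ q) {V U : Type} [AddCommGroup V] [Module O V]
    [AddCommGroup U] [Module O U]
    (hp : ∀ v : V, (p : O) • v = 0) (X : V →ₗ[O] V) {P J s g : ℕ} (hs : s + J + 1 = P) (hJ : 2 * J + 1 ≤ P)
    (hfin : Finite {v : V // X v = 0}) (h1 : Nat.card {v : V // X v = 0} ≤ q ^ 2)
    (E E0 : Submodule O V) (hE : ∀ e ∈ E, X e ∈ E) (hE' : ∀ e ∈ E, (X ^ P) e = 0)
    (hEc : Nat.card E = q ^ P) (hEs : E.map (X ^ s) = E0) (hE0 : Nat.card E0 = q) (hE0' : ∀ e ∈ E0, X e = 0)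
    (Y : U →ₗ[O] U) (loc : Fin g → U →ₗ[O] V) (hcomm : ∀ v u, loc v (Y u) = X (loc v u))
    (hinj : ∀ u : U, Y u = 0 → (∀ v, loc v u ∈ E0) → u = 0)
    (hdim : q ^ (g * P) ≤ Nat.card {u : U // (Y ^ P) u = 0}) :
    (∀ j ≤ P, Nat.card {u : U // (Y ^ j) u = 0} = q ^ (g * j)) ∧
    (∀ a b : ℕ, a + b = P → ∀ u : U, (Y ^ b) u = 0 → ∃ w : U, (Y ^ P) w = 0 ∧ (Y ^ a) w = u) ∧
    ∀ u : U, (Y ^ P) u = 0 → ((∀ v, loc v u ∈ E) ↔ (Y ^ J) u = 0) := by
  have hqpos : 0 < q := by omega
  have hP1 : 1 ≤ P := by omega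
  have hX : ∀ (n : ℕ) (v : Fin g) (u : U), loc v ((Y ^ n) u) = (X ^ n) (loc v u) :=
    fun n v u => a3_comm X Y (loc v) (hcomm v) n u
  have ha2 := a2 hmax hq hq2 hp X hs hJ hfin h1 E E0 hE hE' hEc hEs hE0 hE0'
  -- the kernel of Y embeds
  let K : Submodule O V := LinearMap.ker X
  let E1 : Submodule O K := E0.comap K.subtype
  have hKc : Nat.card K ≤ q ^ 2 := h1
  have hKf : Finite K := hfin
  have hE1c : Nat.card E1 = q := by
    rw [← hE0]
    exact Nat.card_congr ⟨fun e => ⟨e.1.1, e.2⟩, fun e => ⟨⟨e.1, hE0' e.1 e.2⟩, e.2⟩, fun _ => rfl, fun _ => rfl⟩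
  have hQc : Nat.card (K ⧸ E1) ≤ q := by
    have h3 : Nat.card K = Nat.card (K ⧸ E1) * Nat.card E1 :=
      AddSubgroup.card_eq_card_quotient_mul_card_addSubgroup E1.toAddSubgroup
    rw [h3, hE1c, pow_two] at hKc
    exact Nat.le_of_mul_le_mul_right hKc hqpos
  have hQf : Finite (K ⧸ E1) := Finite.of_surjective E1.mkQ (Submodule.mkQ_surjective E1)
  let f : {u : U // Y u = 0} → (Fin g → K ⧸ E1) := fun u v =>
    E1.mkQ ⟨loc v u.1, by
      show X (loc v u.1) = 0
      rw [← hcomm, u.2, map_zero]⟩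
  have hf : Function.Injective f := by
    intro u u' h
    have h3 : u.1 - u'.1 = 0 := by
      refine hinj _ (by rw [map_sub, u.2, u'.2, sub_zero]) fun v => ?_
      have h4 := congrFun h v
      have h5 := (Submodule.Quotient.eq E1).mp h4
      have h6 : loc v (u.1 - u'.1) = (loc v u.1) - (loc v u'.1) := map_sub _ _ _
      rw [h6]
      exact h5
    exact Subtype.ext (sub_eq_zero.mp h3)
  have hfinY : Finite {u : U // Y u = 0} := Finite.of_injective f hf
  have hle : Nat.card {u : U // Y u = 0} ≤ q ^ g := by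
    have h3 := Nat.card_le_card_of_injective f hf
    rw [Nat.card_fun] at h3
    refine h3.trans ?_
    rw [Nat.card_fin]
    exact Nat.pow_le_pow_left hQc g
  have hendY : ∀ n, Nat.card {u : U // (a2_toEnd Y ^ n) u = 0} = Nat.card {u : U // (Y ^ n) u = 0} := by
    intro n
    refine Nat.card_congr (Equiv.subtypeEquivRight fun u => ?_)
    rw [a2_end Y n u]
  have hYc : Nat.card {u : U // Y u = 0} = q ^ g :=
    a1_le (a2_toEnd Y) (c := q ^ g) (P := P) (Nat.one_le_pow _ _ hqpos) hP1 hfinY hle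
      (by rw [hendY, ← pow_mul]; exact hdim)
  have hA : ∀ a b : ℕ, a + b = P → _ := fun a b hab =>
    a1 (a2_toEnd Y) (c := q ^ g) (P := P) (Nat.one_le_pow _ _ hqpos) hYc
      (by rw [hendY, ← pow_mul]; exact hdim) (a := a) (b := b) hab
  have hsurj : ∀ a b : ℕ, a + b = P → ∀ u : U, (Y ^ b) u = 0 → ∃ w : U, (Y ^ P) w = 0 ∧ (Y ^ a) w = u := by
    intro a b hab u hu
    obtain ⟨w, hw1, hw2⟩ := (hA a b hab).2 u (by rw [a2_end]; exact hu)
    exact ⟨w, by rw [← a2_end]; exact hw1, by rw [← a2_end]; exact hw2⟩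
  refine ⟨?_, hsurj, ?_⟩
  · intro j hj
    rw [pow_mul, ← (hA (P - j) j (by omega)).1, hendY]
  · intro u hu
    constructor
    · intro hloc
      by_contra hne
      -- the last power
      have hex : ∃ m, (Y ^ (J + m)) u = 0 := ⟨P - J, by rw [show J + (P - J) = P by omega]; exact hu⟩
      classical
      let m := Nat.find hex
      have hm : (Y ^ (J + m)) u = 0 := Nat.find_spec hex
      have hm0 : m ≠ 0 := by
        intro h0
        rw [h0] at hm
        exact hne hm
      have hmin : (Y ^ (J + (m - 1))) u ≠ 0 := Nat.find_min hex (m := m - 1) (by omega)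
      have hlocs : ∀ (n : ℕ) (v : Fin g), loc v ((Y ^ n) u) ∈ E := by
        intro n v
        rw [hX]
        induction n with
        | zero => exact hloc v
        | succ n ih =>
          rw [pow_succ']
          exact hE _ ih
      have hs1 : (Y ^ (J + 1)) ((Y ^ (m - 1)) u) = 0 := by
        rw [← Module.End.mul_apply, ← pow_add, show J + 1 + (m - 1) = J + m by omega]
        exact hm
      obtain ⟨r', hr1, hr2⟩ := hsurj s (J + 1) (by omega) _ hs1
      have ht : (Y ^ (P - 1)) r' = (Y ^ J) ((Y ^ (m - 1)) u) := by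
        rw [← hr2, ← Module.End.mul_apply, ← pow_add, show J + s = P - 1 by omega]
      have ht0 : (Y ^ (P - 1)) r' ≠ 0 := by
        rw [ht, ← Module.End.mul_apply, ← pow_add]
        exact hmin
      refine ht0 (hinj _ ?_ fun v => ?_)
      · rw [← Module.End.mul_apply, ← pow_succ', show P - 1 + 1 = P by omega]
        exact hr1
      · rw [hX]
        refine ha2.2 (loc v r') ?_ ?_
        · rw [← hX, hr1, map_zero]
        · rw [← hX, hr2]
          exact hlocs _ v
    · intro h0 v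
      obtain ⟨w, hw1, hw2⟩ := hsurj (P - J) J (by omega) u h0
      rw [← hw2, hX]
      refine ha2.1 (loc v w) ?_
      rw [← hX, hw1, map_zero]


end H35K
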