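import Mathlib
import Pool.Agent.Lib.H35K.Defs

/-! # H35K, chunk B1 (M): polynomial identities modulo p -/

namespace H35K

open Polynomial

/-- A polynomial which is 0 modulo p is divisible by p. -/
theorem b1_dvd {p : ℕ} (F : ℤ[X]) (h : F.map (Int.castRingHom (ZMod p)) = 0) :
    ∃ h : ℤ[X], F = C (p : ℤ) * h := by
  have : C (p : ℤ) ∣ F := by
    rw [Polynomial.C_dvd_iff_dvd_coeff]
    intro i
    have h1 : (F.map (Int.castRingHom (ZMod p))).coeff i = 0 := by
      rw [h, Polynomial.coeff_zero]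
    rw [Polynomial.coeff_map] at h1
    exact (ZMod.intCast_zmod_eq_zero_iff_dvd _ _).1 h1
  exact this

/-- Chunk B1 (M). Y = X in the polynomial ring: sum over i < p of (X+1)^(i p^n) = X^(p^(n+1) - p^n) + p h with h(0) = 1. PROOF. Modulo p: (X+1)^(p^n) = X^(p^n) + 1
(add_pow_char_pow), and sum over i < p of (T+1)^i = T^(p-1) for T = X^(p^n) (multiply by T: (T+1)^p - 1 = T^p modulo p; T is not a zero divisor). So the
difference of the two sides is divisible by p (Polynomial.map to ZMod p is 0; or C p divides it: coefficientwise); at 0 the sum is p and the power of X is 0 (p^(n+1) > p^n). -/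
theorem nrm_poly {p : ℕ} (hp : p.Prime) (n : ℕ) :
    ∃ h : ℤ[X], (∑ i ∈ Finset.range p, (X + 1 : ℤ[X]) ^ (i * p ^ n)) = X ^ (p ^ (n + 1) - p ^ n) + (C (p : ℤ)) * h ∧
      h.eval 0 = 1 := by
  haveI : Fact p.Prime := ⟨hp⟩
  have hmod : ((∑ i ∈ Finset.range p, (X + 1 : ℤ[X]) ^ (i * p ^ n)) -
      X ^ (p ^ (n + 1) - p ^ n)).map (Int.castRingHom (ZMod p)) = 0 := by
    rw [Polynomial.map_sub, Polynomial.map_sum, Polynomial.map_pow, Polynomial.map_X, sub_eq_zero]
    have h1 : ∀ i ∈ Finset.range p, ((X + 1 : ℤ[X]) ^ (i * p ^ n)).map (Int.castRingHom (ZMod p)) =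
        ((X : (ZMod p)[X]) ^ p ^ n + 1) ^ i := by
      intro i _
      rw [Polynomial.map_pow, Polynomial.map_add, Polynomial.map_X, Polynomial.map_one, mul_comm,
        pow_mul, add_pow_char_pow, one_pow]
    rw [Finset.sum_congr rfl h1]
    have hT : ((X : (ZMod p)[X]) ^ p ^ n) ≠ 0 := pow_ne_zero _ X_ne_zero
    apply mul_right_cancel₀ hT
    have h2 := geom_sum_mul ((X : (ZMod p)[X]) ^ p ^ n + 1) p
    rw [add_sub_cancel_right] at h2
    rw [h2, add_pow_char, one_pow, add_sub_cancel_right, ← pow_mul, ← pow_add]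
    congr 1
    rw [← pow_succ, Nat.sub_add_cancel (Nat.pow_le_pow_right hp.pos (Nat.le_succ n))]
  obtain ⟨h, hh⟩ := b1_dvd _ hmod
  refine ⟨h, ?_, ?_⟩
  · rw [← hh]
    ring
  · have h3 := congrArg (Polynomial.eval 0) hh
    have hne : p ^ (n + 1) - p ^ n ≠ 0 := by
      have : p ^ n < p ^ (n + 1) := Nat.pow_lt_pow_right hp.one_lt (Nat.lt_succ_self n)
      omega
    have hp0 : (p : ℤ) ≠ 0 := by exact_mod_cast hp.pos.ne'
    rw [Polynomial.eval_sub, Polynomial.eval_finset_sum, Polynomial.eval_mul, Polynomial.eval_C,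
      Polynomial.eval_pow, Polynomial.eval_X, zero_pow hne, sub_zero] at h3
    have h4 : (∑ i ∈ Finset.range p, Polynomial.eval 0 ((X + 1 : ℤ[X]) ^ (i * p ^ n))) = (p : ℤ) := by
      rw [Finset.sum_congr rfl (g := fun _ => (1 : ℤ))]
      · simp
      · intro i _
        simp
    rw [h4] at h3
    have h5 : (p : ℤ) * 1 = (p : ℤ) * Polynomial.eval 0 h := by rw [mul_one]; exact h3
    exact (mul_left_cancel₀ hp0 h5).symm

/-- Chunk B1 (S/M). (X+1)^(p^n) = X^(p^n) + 1 + p h. -/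
theorem lev_poly {p : ℕ} (hp : p.Prime) (n : ℕ) :
    ∃ h : ℤ[X], (X + 1 : ℤ[X]) ^ (p ^ n) = X ^ (p ^ n) + 1 + (C (p : ℤ)) * h := by
  haveI : Fact p.Prime := ⟨hp⟩
  have hmod : ((X + 1 : ℤ[X]) ^ (p ^ n) - (X ^ (p ^ n) + 1)).map (Int.castRingHom (ZMod p)) = 0 := by
    rw [Polynomial.map_sub, Polynomial.map_pow, Polynomial.map_add, Polynomial.map_X,
      Polynomial.map_one, Polynomial.map_add, Polynomial.map_pow, Polynomial.map_X,
      Polynomial.map_one, add_pow_char_pow, one_pow, sub_self]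
  obtain ⟨h, hh⟩ := b1_dvd _ hmod
  refine ⟨h, ?_⟩
  rw [← hh]
  ring

/-- Chunk B1 (S). The norm is the value of the polynomial at f - 1. -/
theorem nrm_aeval {O Z : Type} [CommRing O] [AddCommGroup Z] [Module O Z] (p n : ℕ) (f : Z →ₗ[O] Z) :
    nrm p n f = Polynomial.aeval (R := ℤ) (f - 1) (∑ i ∈ Finset.range p, (X + 1 : ℤ[X]) ^ (i * p ^ n)) := by
  rw [map_sum]
  unfold nrm
  refine Finset.sum_congr rfl (fun i _ => ?_)
  rw [map_pow, map_add, Polynomial.aeval_X, map_one, sub_add_cancel]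

/-- p times an operator kills an element killed by p. -/
theorem b1_kill {O Z : Type} [CommRing O] [AddCommGroup Z] [Module O Z] {p : ℕ} (g : Z →ₗ[O] Z) (h : ℤ[X])
    (z : Z) (hz : p • z = 0) : (Polynomial.aeval (R := ℤ) g (C (p : ℤ) * h)) z = 0 := by
  rw [mul_comm, map_mul, Polynomial.aeval_C, Module.End.mul_apply]
  have : ((algebraMap ℤ (Module.End O Z)) (p : ℤ)) z = 0 := by
    rw [map_natCast, Module.End.natCast_apply, hz]
  rw [this, map_zero]

/-- Chunk B1 (S/M). On elements killed by p the norm is (f-1)^(p^(n+1) - p^n) (apply the polynomial identity). -/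
theorem nrm_p {O Z : Type} [CommRing O] [AddCommGroup Z] [Module O Z] {p : ℕ} (hp : p.Prime) (n : ℕ) (f : Z →ₗ[O] Z)
    (z : Z) (hz : p • z = 0) : nrm p n f z = ((f - 1) ^ (p ^ (n + 1) - p ^ n)) z := by
  obtain ⟨h, hh, -⟩ := nrm_poly hp n
  rw [nrm_aeval, hh, map_add, LinearMap.add_apply, b1_kill _ _ _ hz, add_zero, map_pow,
    Polynomial.aeval_X]

/-- Chunk B1 (S). f^(p^n) - 1 applied to an element killed by p. -/
theorem sub_p {O Z : Type} [CommRing O] [AddCommGroup Z] [Module O Z] {p : ℕ} (hp : p.Prime) (n : ℕ) (f : Z →ₗ[O] Z)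
    (z : Z) (hz : p • z = 0) : (f ^ p ^ n) z - z = ((f - 1) ^ (p ^ n)) z := by
  obtain ⟨h, hh⟩ := lev_poly hp n
  have h1 : f ^ p ^ n = Polynomial.aeval (R := ℤ) (f - 1) ((X + 1 : ℤ[X]) ^ (p ^ n)) := by
    rw [map_pow, map_add, Polynomial.aeval_X, map_one, sub_add_cancel]
  rw [h1, hh, map_add, LinearMap.add_apply, b1_kill _ _ _ hz, add_zero, map_add,
    LinearMap.add_apply, map_one, map_pow, Polynomial.aeval_X, Module.End.one_apply,
    add_sub_cancel_right]

/-- Chunk B1 (S/M). On elements killed by p the level condition is (f-1)^(p^n) z = 0. -/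
theorem lev_p {O Z : Type} [CommRing O] [AddCommGroup Z] [Module O Z] {p : ℕ} (hp : p.Prime) (n : ℕ) (f : Z →ₗ[O] Z)
    (z : Z) (hz : p • z = 0) : Lev p n f z ↔ ((f - 1) ^ (p ^ n)) z = 0 := by
  rw [← sub_p hp n f z hz, sub_eq_zero]
  exact Iff.rfl

end H35K
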