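import Mathlib
import Pool.Agent.Lib.H35K.A0
import Pool.Agent.Lib.H35K.A3
import Pool.Agent.Lib.H35K.B1

/-! # H35K, chunk B2 (M): the tower modulo p -/

namespace H35K

variable {O R W : Type} [CommRing O] [AddCommGroup R] [Module O R] [AddCommGroup W] [Module O W]
  {p q g : ℕ} {gam : R →ₗ[O] R} {del : W →ₗ[O] W} {loc : Fin g → R →ₗ[O] W} {D : ℕ → Submodule O W}

section b2_aux

variable {Z : Type} [AddCommGroup Z] [Module O Z]

/-- The elements killed by `p`. -/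
abbrev b2_T (O : Type) [CommRing O] (Z : Type) [AddCommGroup Z] [Module O Z] (p : ℕ) : Submodule O Z :=
  Submodule.torsionBy O Z (p : O)

theorem b2_mem {z : Z} : z ∈ b2_T O Z p ↔ p • z = 0 := by
  rw [b2_T, Submodule.mem_torsionBy_iff, Nat.cast_smul_eq_nsmul]

theorem b2_st {Z' : Type} [AddCommGroup Z'] [Module O Z'] (f : Z →ₗ[O] Z') :
    ∀ z ∈ b2_T O Z p, f z ∈ b2_T O Z' p := by
  intro z hz
  rw [b2_mem] at hz ⊢
  rw [← map_nsmul, hz, map_zero]

/-- The restriction of a linear map to the elements killed by `p`. -/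
noncomputable def b2_r {Z' : Type} [AddCommGroup Z'] [Module O Z'] (p : ℕ) (f : Z →ₗ[O] Z') :
    b2_T O Z p →ₗ[O] b2_T O Z' p := f.restrict (b2_st f)

theorem b2_r_coe {Z' : Type} [AddCommGroup Z'] [Module O Z'] (f : Z →ₗ[O] Z') (u : b2_T O Z p) :
    ((b2_r p f u : b2_T O Z' p) : Z') = f (u : Z) := rfl

theorem b2_pow (f : Z →ₗ[O] Z) (j : ℕ) (u : b2_T O Z p) : (((b2_r p f ^ j) u : b2_T O Z p) : Z) = (f ^ j) (u : Z) := by
  induction j generalizing u with
  | zero => rfl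
  | succ j ih =>
    rw [pow_succ, pow_succ, Module.End.mul_apply, Module.End.mul_apply, ih, b2_r_coe]

theorem b2_pow_zero (f : Z →ₗ[O] Z) (j : ℕ) (u : b2_T O Z p) : (b2_r p f ^ j) u = 0 ↔ (f ^ j) (u : Z) = 0 := by
  rw [← b2_pow, ZeroMemClass.coe_eq_zero]

theorem b2_card (f : Z →ₗ[O] Z) (j : ℕ) :
    Nat.card {u : b2_T O Z p // (b2_r p f ^ j) u = 0} = Nat.card {z : Z // p • z = 0 ∧ (f ^ j) z = 0} := by
  refine Nat.card_congr
    { toFun := fun u => ⟨(u.1 : Z), b2_mem.1 u.1.2, (b2_pow_zero f j u.1).1 u.2⟩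
      invFun := fun z => ⟨⟨z.1, b2_mem.2 z.2.1⟩, (b2_pow_zero f j _).2 z.2.2⟩
      left_inv := fun u => rfl
      right_inv := fun z => rfl }

theorem b2_lev (hp : p.Prime) (n : ℕ) (f : Z →ₗ[O] Z) :
    Nat.card {z : Z // p • z = 0 ∧ Lev p n f z} = Nat.card {u : b2_T O Z p // (b2_r p (f - 1) ^ (p ^ n)) u = 0} := by
  rw [b2_card]
  refine Nat.card_congr (Equiv.subtypeEquivRight fun z => ?_)
  constructor
  · rintro ⟨h1, h2⟩
    exact ⟨h1, (lev_p hp n f z h1).1 h2⟩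
  · rintro ⟨h1, h2⟩
    exact ⟨h1, (lev_p hp n f z h1).2 h2⟩

theorem b2_sub_one (f : Z →ₗ[O] Z) (z : Z) : (f - 1) z = f z - z := rfl

/-- The elements of a submodule killed by `p`. -/
noncomputable def b2_E (p : ℕ) (D : Submodule O Z) : Submodule O (b2_T O Z p) := D.comap (b2_T O Z p).subtype

theorem b2_E_mem (D : Submodule O Z) (u : b2_T O Z p) : u ∈ b2_E p D ↔ (u : Z) ∈ D := Iff.rfl

theorem b2_E_card (D : Submodule O Z) : Nat.card (b2_E p D) = Nat.card {z : Z // z ∈ D ∧ p • z = 0} := by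
  refine Nat.card_congr
    { toFun := fun u => ⟨(u.1 : Z), u.2, b2_mem.1 u.1.2⟩
      invFun := fun z => ⟨⟨z.1, b2_mem.2 z.2.2⟩, z.2.1⟩
      left_inv := fun u => rfl
      right_inv := fun z => rfl }

/-- A linear endomorphism as an endomorphism of the additive group. -/
def b2_en (X : Z →ₗ[O] Z) : AddMonoid.End Z := X.toAddMonoidHom

theorem b2_End (X : Z →ₗ[O] Z) (j : ℕ) (z : Z) : (b2_en X ^ j) z = (X ^ j) z := by
  induction j generalizing z with
  | zero => rfl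
  | succ j ih =>
    rw [pow_succ, pow_succ, Module.End.mul_apply]
    exact ih _

end b2_aux

theorem b2_w0 (h : Tow p q g gam del loc D) : Finite {v : b2_T O W p // b2_r p (del - 1) v = 0} ∧
    Nat.card {v : b2_T O W p // b2_r p (del - 1) v = 0} ≤ q ^ 2 := by
  have e : {v : b2_T O W p // b2_r p (del - 1) v = 0} ≃ {w : W // p • w = 0 ∧ del w = w} :=
    { toFun := fun u => ⟨(u.1 : W), b2_mem.1 u.1.2, by
        have h2 := congrArg Subtype.val u.2
        rw [b2_r_coe, b2_sub_one] at h2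
        exact sub_eq_zero.1 h2⟩
      invFun := fun z => ⟨⟨z.1, b2_mem.2 z.2.1⟩, Subtype.ext (show del z.1 - z.1 = 0 from sub_eq_zero.2 z.2.2)⟩
      left_inv := fun u => rfl
      right_inv := fun z => rfl }
  have := h.w0f
  exact ⟨Finite.of_equiv _ e.symm, (Nat.card_congr e).trans_le h.w0⟩

theorem b2_main (h : Tow p q g gam del loc D) (n : ℕ) :
    (∀ j ≤ p ^ n, Nat.card {u : b2_T O R p // (b2_r p (gam - 1) ^ j) u = 0} = q ^ (g * j)) ∧
    (∀ a b : ℕ, a + b = p ^ n → ∀ u : b2_T O R p, (b2_r p (gam - 1) ^ b) u = 0 →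
      ∃ w : b2_T O R p, (b2_r p (gam - 1) ^ p ^ n) w = 0 ∧ (b2_r p (gam - 1) ^ a) w = u) ∧
    ∀ u : b2_T O R p, (b2_r p (gam - 1) ^ p ^ n) u = 0 →
      ((∀ v, b2_r p (loc v) u ∈ b2_E p (D n)) ↔ (b2_r p (gam - 1) ^ J p n) u = 0) := by
  have hJ := J_two h.odd n
  refine a3 h.max h.card h.q2 (V := b2_T O W p) (U := b2_T O R p) (fun v => ?_) (b2_r p (del - 1)) (P := p ^ n)
    (J := J p n) (s := p ^ n - 1 - J p n) (g := g) (by omega) hJ ?_ ?_ (b2_E p (D n)) (b2_E p (D 0)) ?_ ?_ ?_ ?_ ?_ ?_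
    (b2_r p (gam - 1)) (fun v => b2_r p (loc v)) ?_ ?_ ?_
  · exact Subtype.ext ((Submodule.mem_torsionBy_iff _ _).1 v.2)
  · exact (b2_w0 h).1
  · exact (b2_w0 h).2
  · intro e he
    rw [b2_E_mem] at he ⊢
    rw [b2_r_coe, b2_sub_one]
    exact (D n).sub_mem (h.dst n _ he) he
  · intro e he
    rw [b2_pow_zero]
    exact (lev_p h.pr n del _ (b2_mem.1 e.2)).1 (h.dlev n _ he)
  · rw [b2_E_card, h.dp n]
  · ext u
    rw [Submodule.mem_map]
    constructor
    · rintro ⟨w, hw, rfl⟩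
      rw [b2_E_mem, b2_pow]
      exact ((h.ds n _).2 ⟨w, hw, b2_mem.1 w.2, rfl⟩).1
    · intro hu
      obtain ⟨w', h1, h2, h3⟩ := (h.ds n (u : W)).1 ⟨hu, b2_mem.1 u.2⟩
      refine ⟨⟨w', b2_mem.2 h2⟩, h1, Subtype.ext ?_⟩
      rw [b2_pow]
      exact h3
  · rw [b2_E_card, h.dp 0, pow_zero, pow_one]
  · intro e he
    refine Subtype.ext ?_
    rw [b2_r_coe, b2_sub_one]
    have h1 := h.dlev 0 _ he
    unfold Lev at h1
    rw [pow_zero, pow_one] at h1
    change del (e : W) = (e : W) at h1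
    rw [h1, sub_self]
    rfl
  · intro v u
    refine Subtype.ext ?_
    simp only [b2_r_coe, b2_sub_one, map_sub]
    rw [h.comm]
  · intro u hu hv
    have h1 : (gam - 1) (u : R) = 0 := by
      have h2 := congrArg Subtype.val hu
      rw [b2_r_coe] at h2
      exact h2
    rw [b2_sub_one, sub_eq_zero] at h1
    exact Subtype.ext (h.inj _ (b2_mem.1 u.2) h1 fun v => hv v)
  · rw [← b2_lev h.pr n gam]
    exact h.rdim n

/-- Chunk B2 (M). a3 applied to U = Submodule.torsionBy O R p, V = Submodule.torsionBy O W p, Y = gam - 1, X = del - 1 restricted, P = p^n, J = J p n,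
s = p^n - 1 - J p n (J_two), E = D n, E0 = D 0 (comap to V; the cardinalities dp, ds; D 0 has q^(p^0) = q elements killed by p), loc restricted. Level conditions
by lev_p, w0. E in ker X^P: dlev and lev_p. X E in E: dst. The results: cardinalities of the kernels of the powers of gam - 1 on the elements killed by p. -/
theorem t1_card (h : Tow p q g gam del loc D) (n j : ℕ) (hj : j ≤ p ^ n) :
    Nat.card {r : R // p • r = 0 ∧ ((gam - 1) ^ j) r = 0} = q ^ (g * j) := by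
  rw [← b2_card (O := O) (gam - 1) j]
  exact (b2_main h n).1 j hj

/-- Chunk B2 (M). The powers of gam - 1 are onto. -/
theorem t1_ontoR (h : Tow p q g gam del loc D) (n a b : ℕ) (hab : a + b = p ^ n) (r : R) (h1 : p • r = 0)
    (h2 : ((gam - 1) ^ b) r = 0) : ∃ r' : R, p • r' = 0 ∧ Lev p n gam r' ∧ ((gam - 1) ^ a) r' = r := by
  obtain ⟨w, h3, h4⟩ := (b2_main h n).2.1 a b hab ⟨r, b2_mem.2 h1⟩ ((b2_pow_zero _ _ _).2 h2)
  have h5 := b2_mem.1 w.2
  refine ⟨w, h5, (lev_p h.pr n gam _ h5).2 ((b2_pow_zero _ _ _).1 h3), ?_⟩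
  rw [← b2_pow, h4]

/-- Chunk B2 (M). The Selmer classes killed by p: those killed by (gam - 1)^J. -/
theorem t1_sel (h : Tow p q g gam del loc D) (n : ℕ) (r : R) (h1 : p • r = 0) (h2 : Lev p n gam r) :
    (∀ v, loc v r ∈ D n) ↔ ((gam - 1) ^ J p n) r = 0 := by
  have h3 := (b2_main h n).2.2 ⟨r, b2_mem.2 h1⟩ ((b2_pow_zero _ _ _).2 ((lev_p h.pr n gam r h1).1 h2))
  rw [b2_pow_zero] at h3
  exact h3

/-- Chunk B2 (M). There are at most q^(2 p^n) local classes of level n killed by p: a1_bound with c = q^2 for V = Submodule.torsionBy O W p. -/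
theorem t1_leW (h : Tow p q g gam del loc D) (n : ℕ) : Finite {w : W // p • w = 0 ∧ Lev p n del w} ∧
    Nat.card {w : W // p • w = 0 ∧ Lev p n del w} ≤ q ^ (2 * p ^ n) := by
  let X : AddMonoid.End (b2_T O W p) := b2_en (b2_r p (del - 1))
  have hX : ∀ j (u : b2_T O W p), (X ^ j) u = (b2_r p (del - 1) ^ j) u := fun j u => b2_End (b2_r p (del - 1)) j u
  obtain ⟨h1, h2⟩ := a1_bound X (c := q ^ 2) (b2_w0 h).1 (b2_w0 h).2 (p ^ n)
  have e : {v : b2_T O W p // (X ^ p ^ n) v = 0} ≃ {w : W // p • w = 0 ∧ Lev p n del w} :=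
    { toFun := fun u => ⟨(u.1 : W), b2_mem.1 u.1.2, (lev_p h.pr n del _ (b2_mem.1 u.1.2)).2 ((b2_pow_zero _ _ _).1 (by rw [← hX]; exact u.2))⟩
      invFun := fun z => ⟨⟨z.1, b2_mem.2 z.2.1⟩, by
        rw [hX]
        exact (b2_pow_zero _ _ _).2 ((lev_p h.pr n del _ z.2.1).1 z.2.2)⟩
      left_inv := fun u => rfl
      right_inv := fun z => rfl }
  refine ⟨Finite.of_equiv _ e, ?_⟩
  rw [← Nat.card_congr e, pow_mul]
  exact h2

/-- Chunk B2 (M). The same as t1_ontoR for the local module: a1 with c = q^2 for V = Submodule.torsionBy O W p, if there are at least q^(2 p^n) classes. -/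
theorem t1_ontoW (h : Tow p q g gam del loc D) (n a b : ℕ) (hab : a + b = p ^ n)
    (hwn : q ^ (2 * p ^ n) ≤ Nat.card {w : W // p • w = 0 ∧ Lev p n del w}) (w : W) (h1 : p • w = 0)
    (h2 : ((del - 1) ^ b) w = 0) : ∃ w' : W, p • w' = 0 ∧ Lev p n del w' ∧ ((del - 1) ^ a) w' = w := by
  have hq : 1 ≤ q ^ 2 := Nat.one_le_iff_ne_zero.2 (pow_ne_zero _ (by have := h.q2; omega))
  let X : AddMonoid.End (b2_T O W p) := b2_en (b2_r p (del - 1))
  have hX : ∀ j (u : b2_T O W p), (X ^ j) u = (b2_r p (del - 1) ^ j) u := fun j u => b2_End (b2_r p (del - 1)) j u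
  have e2 : (q ^ 2) ^ (p ^ n) ≤ Nat.card {v : b2_T O W p // (X ^ p ^ n) v = 0} := by
    rw [b2_lev h.pr n del] at hwn
    have h3 : Nat.card {v : b2_T O W p // (X ^ p ^ n) v = 0} =
        Nat.card {u : b2_T O W p // (b2_r p (del - 1) ^ (p ^ n)) u = 0} :=
      Nat.card_congr (Equiv.subtypeEquivRight fun u => by rw [hX])
    rw [h3, ← pow_mul]
    exact hwn
  have e1 : Nat.card {v : b2_T O W p // X v = 0} = q ^ 2 :=
    a1_le X hq (Nat.one_le_iff_ne_zero.2 (pow_ne_zero _ h.pr.ne_zero)) (b2_w0 h).1 (b2_w0 h).2 e2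
  obtain ⟨u, h3, h4⟩ := (a1 X hq e1 e2 hab).2 ⟨w, b2_mem.2 h1⟩ (by rw [hX]; exact (b2_pow_zero _ _ _).2 h2)
  rw [hX] at h3 h4
  have h5 := b2_mem.1 u.2
  refine ⟨u, h5, (lev_p h.pr n del _ h5).2 ((b2_pow_zero _ _ _).1 h3), ?_⟩
  rw [← b2_pow, h4]

end H35K
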