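import Mathlib
import Pool.Agent.Lib.H35K.B2

/-! # H35K, chunk B4 (M): cohomological triviality -/

namespace H35K

/-- The norm is the geometric sum of T = f^(p^n). -/
theorem b4_nrm {O Z : Type} [CommRing O] [AddCommGroup Z] [Module O Z] (p n : ℕ) (f : Z →ₗ[O] Z) :
    nrm p n f = ∑ i ∈ Finset.range p, (f ^ p ^ n) ^ i := by
  unfold nrm
  refine Finset.sum_congr rfl (fun i _ => ?_)
  rw [mul_comm, pow_mul]

/-- Elements of level n are of level n + 1. -/
theorem b4_up {O Z : Type} [CommRing O] [AddCommGroup Z] [Module O Z] {p n : ℕ} {f : Z →ₗ[O] Z} {z : Z}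
    (hz : Lev p n f z) (i : ℕ) : ((f ^ p ^ n) ^ i) z = z := by
  induction i with
  | zero => rfl
  | succ i ih =>
    rw [pow_succ, Module.End.mul_apply]
    have : (f ^ p ^ n) z = z := hz
    rw [this, ih]

/-- The level condition at level n + 1. -/
theorem b4_lev {O Z : Type} [CommRing O] [AddCommGroup Z] [Module O Z] {p n : ℕ} {f : Z →ₗ[O] Z} {z : Z} :
    Lev p (n + 1) f z ↔ ((f ^ p ^ n) ^ p) z = z := by
  unfold Lev
  rw [← pow_mul, ← pow_succ]

/-- The level is preserved by subtraction. -/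
theorem b4_sub {O Z : Type} [CommRing O] [AddCommGroup Z] [Module O Z] {p n : ℕ} {f : Z →ₗ[O] Z} {y z : Z}
    (hy : Lev p n f y) (hz : Lev p n f z) : Lev p n f (y - z) := by
  unfold Lev at *
  rw [map_sub, hy, hz]

/-- The level is preserved by operators commuting with f. -/
theorem b4_comm {O Z : Type} [CommRing O] [AddCommGroup Z] [Module O Z] {p n : ℕ} {f : Z →ₗ[O] Z} {z : Z}
    (hz : Lev p n f z) (S : Z →ₗ[O] Z) (hS : Commute f S) : Lev p n f (S z) := by
  unfold Lev at *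
  have h1 : (f ^ p ^ n * S) = S * f ^ p ^ n := (hS.pow_left _).eq
  have h2 : (f ^ p ^ n) (S z) = (f ^ p ^ n * S) z := rfl
  rw [h2, h1, Module.End.mul_apply, hz]

/-- T N z - N z = T^p z - z. -/
theorem b4_tn {O Z : Type} [CommRing O] [AddCommGroup Z] [Module O Z] (p n : ℕ) (f : Z →ₗ[O] Z) (z : Z) :
    (f ^ p ^ n) (nrm p n f z) - nrm p n f z = ((f ^ p ^ n) ^ p) z - z := by
  have h := mul_geom_sum (f ^ p ^ n) p
  rw [← b4_nrm] at h
  have h2 := congrArg (fun g : Z →ₗ[O] Z => g z) h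
  simpa [sub_mul] using h2

/-- N T z - N z = T^p z - z. -/
theorem b4_nt {O Z : Type} [CommRing O] [AddCommGroup Z] [Module O Z] (p n : ℕ) (f : Z →ₗ[O] Z) (z : Z) :
    nrm p n f ((f ^ p ^ n) z - z) = ((f ^ p ^ n) ^ p) z - z := by
  have h := geom_sum_mul (f ^ p ^ n) p
  rw [← b4_nrm] at h
  have h2 := congrArg (fun g : Z →ₗ[O] Z => g z) h
  simpa [mul_sub] using h2

/-- Chunk B4 (M). Z an O-module of p-power torsion with the operator f; at level n + 1 it is divisible by p, and for the elements killed by p: norm 0 implies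
of the form f^(p^n) y - y, and those of level n are norms. THEN the same is true for all elements of level n + 1. PROOF. T = f^(p^n), N = nrm p n f = sum over i < p of T^i,
T^p z = z for z of level n + 1, N T z = N z, T N z = N z. (1) N z = 0: z = p y (divisibility), p N y = 0, T N y = N y, so N y = N t with p t = 0 (second assumption: N y is killed by p and of level n);
y' = y - t: p y' = z, N y' = 0, z = (p - N) y' = sum over i < p of (1 - T^i) y' = T w - w (1 - T^i = (T - 1) (- sum over j < i of T^j)). (2) T z = z: z = p y,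
x = T y - y is killed by p and N x = 0, so x = T t - t with p t = 0, y' = y - t: T y' = y', p y' = z, N y' = p y' = z. -/
theorem tate {O Z : Type} [CommRing O] [AddCommGroup Z] [Module O Z] {p : ℕ} (n : ℕ) (f : Z →ₗ[O] Z)
    (hdiv : ∀ z : Z, Lev p (n + 1) f z → ∃ y : Z, Lev p (n + 1) f y ∧ p • y = z)
    (h1 : ∀ z : Z, p • z = 0 → Lev p (n + 1) f z → nrm p n f z = 0 →
      ∃ y : Z, p • y = 0 ∧ Lev p (n + 1) f y ∧ (f ^ p ^ n) y - y = z)
    (h2 : ∀ z : Z, p • z = 0 → Lev p n f z → ∃ y : Z, p • y = 0 ∧ Lev p (n + 1) f y ∧ nrm p n f y = z) :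
    (∀ z : Z, Lev p (n + 1) f z → nrm p n f z = 0 → ∃ y : Z, Lev p (n + 1) f y ∧ (f ^ p ^ n) y - y = z) ∧
    (∀ z : Z, Lev p n f z → ∃ y : Z, Lev p (n + 1) f y ∧ nrm p n f y = z) := by
  constructor
  · intro z hz hN
    obtain ⟨y, hy, hyz⟩ := hdiv z hz
    have hpN : p • nrm p n f y = 0 := by rw [← map_nsmul, hyz, hN]
    have hTN : Lev p n f (nrm p n f y) := by
      have h := b4_tn p n f y
      rw [b4_lev.1 hy, sub_self, sub_eq_zero] at h
      exact h
    obtain ⟨t, ht, htl, htN⟩ := h2 _ hpN hTN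
    have hyl' : Lev p (n + 1) f (y - t) := b4_sub hy htl
    have hN' : nrm p n f (y - t) = 0 := by rw [map_sub, htN, sub_self]
    have hpz : p • (y - t) = z := by rw [smul_sub, ht, sub_zero, hyz]
    let S : Z →ₗ[O] Z := -∑ i ∈ Finset.range p, ∑ j ∈ Finset.range i, (f ^ p ^ n) ^ j
    have hS : (f ^ p ^ n - 1) * S = (p : Z →ₗ[O] Z) - nrm p n f := by
      show (f ^ p ^ n - 1) * (-∑ i ∈ Finset.range p, ∑ j ∈ Finset.range i, (f ^ p ^ n) ^ j) = _
      rw [mul_neg, Finset.mul_sum, Finset.sum_congr rfl (fun i _ => mul_geom_sum (f ^ p ^ n) i),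
        Finset.sum_sub_distrib, ← b4_nrm, Finset.sum_const, Finset.card_range, neg_sub,
        nsmul_eq_mul, mul_one]
    have hcomm : Commute f S := by
      refine Commute.neg_right (Commute.sum_right _ _ _ (fun i _ => ?_))
      refine Commute.sum_right _ _ _ (fun j _ => ?_)
      exact ((Commute.refl f).pow_right _).pow_right _
    refine ⟨S (y - t), b4_comm hyl' S hcomm, ?_⟩
    have h3 : (f ^ p ^ n) (S (y - t)) - S (y - t) = ((f ^ p ^ n - 1) * S) (y - t) := by
      rw [sub_mul, one_mul]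
      rfl
    rw [h3, hS, LinearMap.sub_apply, hN', sub_zero, Module.End.natCast_apply, hpz]
  · intro z hz
    have hz1 : Lev p (n + 1) f z := b4_lev.2 (b4_up hz p)
    obtain ⟨y, hy, hyz⟩ := hdiv z hz1
    have hx1 : p • ((f ^ p ^ n) y - y) = 0 := by
      rw [smul_sub, ← map_nsmul, hyz, sub_eq_zero]
      exact hz
    have hx2 : Lev p (n + 1) f ((f ^ p ^ n) y - y) :=
      b4_sub (b4_comm hy _ ((Commute.refl f).pow_right _)) hy
    have hx3 : nrm p n f ((f ^ p ^ n) y - y) = 0 := by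
      rw [b4_nt, b4_lev.1 hy, sub_self]
    obtain ⟨t, ht, htl, htx⟩ := h1 _ hx1 hx2 hx3
    have hyt : Lev p n f (y - t) := by
      show (f ^ p ^ n) (y - t) = y - t
      rw [map_sub]
      have : (f ^ p ^ n) t = (f ^ p ^ n) y - y + t := by rw [← htx]; abel
      rw [this]
      abel
    refine ⟨y - t, b4_sub hy htl, ?_⟩
    rw [b4_nrm, LinearMap.sum_apply, Finset.sum_congr rfl (fun i _ => b4_up hyt i),
      Finset.sum_const, Finset.card_range, smul_sub, ht, sub_zero, hyz]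

variable {O R W : Type} [CommRing O] [AddCommGroup R] [Module O R] [AddCommGroup W] [Module O W]
  {p q g : ℕ} {gam : R →ₗ[O] R} {del : W →ₗ[O] W} {loc : Fin g → R →ₗ[O] W} {D : ℕ → Submodule O W}

/-- Chunk B4 (S/M). The global norm is onto: tate with rdiv, t1_ontoR and nrm_p, sub_p (h1: N z = (gam-1)^(p^(n+1)-p^n) z = 0, so z = (gam-1)^(p^n) y;
h2: (gam-1)^(p^n) z = 0 (lev_p), so z = (gam-1)^(p^(n+1)-p^n) y). -/
theorem nrm_ontoR (h : Tow p q g gam del loc D) (n : ℕ) (r : R) (hr : Lev p n gam r) :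
    ∃ r' : R, Lev p (n + 1) gam r' ∧ nrm p n gam r' = r := by
  have hle : p ^ n ≤ p ^ (n + 1) := Nat.pow_le_pow_right h.pr.pos (Nat.le_succ n)
  refine (tate n gam (h.rdiv (n + 1)) ?_ ?_).2 r hr
  · intro z hz hl hN
    rw [nrm_p h.pr n gam z hz] at hN
    obtain ⟨y, hy, hyl, hyz⟩ := t1_ontoR h (n + 1) (p ^ n) (p ^ (n + 1) - p ^ n) (by omega) z hz hN
    exact ⟨y, hy, hyl, by rw [sub_p h.pr n gam y hy, hyz]⟩
  · intro z hz hl
    rw [lev_p h.pr n gam z hz] at hl
    obtain ⟨y, hy, hyl, hyz⟩ := t1_ontoR h (n + 1) (p ^ (n + 1) - p ^ n) (p ^ n) (by omega) z hz hl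
    exact ⟨y, hy, hyl, by rw [nrm_p h.pr n gam y hy, hyz]⟩

/-- Chunk B4 (S/M). The local elements of norm 0, if the local module is divisible at level n + 1: tate with t1_ontoW. -/
theorem nrm_zeroW (h : Tow p q g gam del loc D) (n : ℕ)
    (hwn : q ^ (2 * p ^ (n + 1)) ≤ Nat.card {w : W // p • w = 0 ∧ Lev p (n + 1) del w})
    (hdiv : ∀ z : W, Lev p (n + 1) del z → ∃ y : W, Lev p (n + 1) del y ∧ p • y = z) (w : W)
    (hw : Lev p (n + 1) del w) (h0 : nrm p n del w = 0) : ∃ y : W, Lev p (n + 1) del y ∧ (del ^ p ^ n) y - y = w := by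
  have hle : p ^ n ≤ p ^ (n + 1) := Nat.pow_le_pow_right h.pr.pos (Nat.le_succ n)
  refine (tate n del hdiv ?_ ?_).1 w hw h0
  · intro z hz hl hN
    rw [nrm_p h.pr n del z hz] at hN
    obtain ⟨y, hy, hyl, hyz⟩ := t1_ontoW h (n + 1) (p ^ n) (p ^ (n + 1) - p ^ n) (by omega) hwn z hz hN
    exact ⟨y, hy, hyl, by rw [sub_p h.pr n del y hy, hyz]⟩
  · intro z hz hl
    rw [lev_p h.pr n del z hz] at hl
    obtain ⟨y, hy, hyl, hyz⟩ := t1_ontoW h (n + 1) (p ^ (n + 1) - p ^ n) (p ^ n) (by omega) hwn z hz hl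
    exact ⟨y, hy, hyl, by rw [nrm_p h.pr n del y hy, hyz]⟩

end H35K
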