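import Mathlib
import Pool.Agent.Lib.H35K.B2

/-! # H35K, chunk B3 (M): Selmer classes of norm 0 are killed by p -/

namespace H35K

variable {O R W : Type} [CommRing O] [AddCommGroup R] [Module O R] [AddCommGroup W] [Module O W]
  {p q g : ℕ} {gam : R →ₗ[O] R} {del : W →ₗ[O] W} {loc : Fin g → R →ₗ[O] W} {D : ℕ → Submodule O W}

theorem b3_pow_fix {O Z : Type} [CommRing O] [AddCommGroup Z] [Module O Z] (T : Z →ₗ[O] Z) (z : Z) (h : T z = z)
    (k : ℕ) : (T ^ k) z = z := by
  induction k with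
  | zero => simp
  | succ k ih => rw [pow_succ, Module.End.mul_apply, h, ih]

theorem b3_pow_comm {O Z : Type} [CommRing O] [AddCommGroup Z] [Module O Z] (T : Z →ₗ[O] Z) (z : Z) (k : ℕ) :
    (T ^ k) (T z) = T ((T ^ k) z) := by
  rw [← Module.End.mul_apply, ← Module.End.mul_apply, ← pow_succ, ← pow_succ']

/-- Chunk B3a (S). The Selmer classes of level n form a submodule stable under gam (dst, comm), increasing in n (dmono; Lev p n implies Lev p (n+1)). -/
theorem selm_sub (h : Tow p q g gam del loc D) (n : ℕ) :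
    ∃ S : Submodule O R, (∀ r, r ∈ S ↔ Selm p gam loc D n r) ∧ (∀ r ∈ S, gam r ∈ S) := by
  refine ⟨{ carrier := {r | Selm p gam loc D n r}
            add_mem' := ?_
            zero_mem' := ?_
            smul_mem' := ?_ }, fun r => Iff.rfl, ?_⟩
  · rintro a b ⟨ha1, ha2⟩ ⟨hb1, hb2⟩
    refine ⟨?_, fun v => ?_⟩
    · unfold Lev at *
      rw [map_add, ha1, hb1]
    · rw [map_add]
      exact (D n).add_mem (ha2 v) (hb2 v)
  · refine ⟨?_, fun v => ?_⟩
    · unfold Lev
      rw [map_zero]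
    · rw [map_zero]
      exact (D n).zero_mem
  · rintro c a ⟨ha1, ha2⟩
    refine ⟨?_, fun v => ?_⟩
    · unfold Lev at *
      rw [map_smul, ha1]
    · rw [map_smul]
      exact (D n).smul_mem c (ha2 v)
  · rintro r ⟨hr1, hr2⟩
    refine ⟨?_, fun v => ?_⟩
    · unfold Lev at *
      rw [b3_pow_comm, hr1]
    · rw [h.comm]
      exact h.dst n _ (hr2 v)

/-- Chunk B3a (S). -/
theorem selm_mono (h : Tow p q g gam del loc D) (n : ℕ) (r : R) (hr : Selm p gam loc D n r) :
    Selm p gam loc D (n + 1) r := by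
  refine ⟨?_, fun v => h.dmono n (hr.2 v)⟩
  have h1 := hr.1
  unfold Lev at *
  rw [pow_succ, pow_mul]
  exact b3_pow_fix _ r h1 p

theorem b3_loc_pow (h : Tow p q g gam del loc D) (v : Fin g) (r : R) (k : ℕ) :
    loc v ((gam ^ k) r) = (del ^ k) (loc v r) := by
  induction k with
  | zero => simp
  | succ k ih =>
    rw [pow_succ', Module.End.mul_apply, h.comm, ih, pow_succ', Module.End.mul_apply]

/-- Chunk B3a (S). The norm of a Selmer class is a Selmer class: gam^(p^n) permutes the summands of the norm cyclically (gam^(p^(n+1)) r = r), loc commutes with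
the norm (comm), dnrm. -/
theorem selm_nrm (h : Tow p q g gam del loc D) (n : ℕ) (r : R) (hr : Selm p gam loc D (n + 1) r) :
    Selm p gam loc D n (nrm p n gam r) := by
  refine ⟨?_, fun v => ?_⟩
  · have h1 := hr.1
    unfold Lev at *
    unfold nrm
    rw [LinearMap.sum_apply, map_sum]
    have e1 : ∀ i ∈ Finset.range p, (gam ^ p ^ n) ((gam ^ (i * p ^ n)) r) = (gam ^ ((i + 1) * p ^ n)) r := by
      intro i _
      rw [← Module.End.mul_apply, ← pow_add]
      congr 2
      ring
    rw [Finset.sum_congr rfl e1]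
    have e2 : (gam ^ (p * p ^ n)) r = (gam ^ (0 * p ^ n)) r := by
      have : p * p ^ n = p ^ (n + 1) := by ring
      rw [this, h1]
      simp
    have e3 := Finset.sum_range_succ (fun i => (gam ^ (i * p ^ n)) r) p
    have e4 := Finset.sum_range_succ' (fun i => (gam ^ (i * p ^ n)) r) p
    rw [e3] at e4
    rw [e2] at e4
    exact (add_right_cancel e4).symm
  · have e1 : loc v (nrm p n gam r) = nrm p n del (loc v r) := by
      unfold nrm
      rw [LinearMap.sum_apply, LinearMap.sum_apply, map_sum]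
      exact Finset.sum_congr rfl (fun i _ => b3_loc_pow h v r _)
    rw [e1]
    exact h.dnrm n _ (hr.2 v)

/-- The norm as a polynomial in Y. -/
theorem b3_nrm {O Z : Type} [CommRing O] [AddCommGroup Z] [Module O Z] {p : ℕ} (hp : p.Prime) (n : ℕ)
    (f : Z →ₗ[O] Z) : ∃ G : Z →ₗ[O] Z, Commute G (f - 1) ∧
      ∀ z, nrm p n f z = ((f - 1) ^ (p ^ (n + 1) - p ^ n)) z + (p • z + G ((f - 1) (p • z))) := by
  obtain ⟨h, h1, h2⟩ := nrm_poly hp n
  refine ⟨Polynomial.aeval (R := ℤ) (f - 1) h.divX, ?_, ?_⟩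
  · have h3 : Commute (Polynomial.aeval (R := ℤ) (f - 1) h.divX)
        (Polynomial.aeval (R := ℤ) (f - 1) (Polynomial.X : Polynomial ℤ)) := by
      unfold Commute SemiconjBy
      rw [← map_mul, ← map_mul, mul_comm]
    rwa [Polynomial.aeval_X] at h3
  · intro z
    have h3 : h = h.divX * Polynomial.X + Polynomial.C 1 := by
      have h4 := Polynomial.divX_mul_X_add h
      rw [Polynomial.coeff_zero_eq_eval_zero, h2] at h4
      exact h4.symm
    have h5 : Polynomial.aeval (R := ℤ) (f - 1) h =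
        Polynomial.aeval (R := ℤ) (f - 1) h.divX * (f - 1) + 1 := by
      conv_lhs => rw [h3]
      rw [map_add, map_mul, Polynomial.aeval_X, Polynomial.aeval_C, map_one]
    have h6 : (algebraMap ℤ (Module.End O Z)) (p : ℤ) = ((p : ℕ) : Module.End O Z) := by simp
    rw [nrm_aeval, h1, map_add, map_pow, Polynomial.aeval_X, map_mul, Polynomial.aeval_C, h5, LinearMap.add_apply]
    congr 1
    rw [h6, Module.End.mul_apply, Module.End.natCast_apply, LinearMap.add_apply, Module.End.mul_apply,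
      Module.End.one_apply, smul_add, map_nsmul, map_nsmul, add_comm]

/-- Chunk B3 (M). A Selmer class r of level n + 1 with norm 0 (to level n) is killed by p. PROOF. e = p^(n+1) - p^n, Y = gam - 1, J = J p (n+1), J + 1 <= e (J_phi).
N = Y^e + p H(Y), H(0) = 1 (nrm_poly, nrm_aeval). Suppose p r <> 0. Some multiple p^k r (torR) has p^(k+2) r = 0, p^(k+1) r <> 0, it is a Selmer class with
norm 0: so assume p^2 r = 0, p r <> 0. p r is a Selmer class killed by p: Y^J (p r) = 0 (t1_sel). Let d be minimal with Y^d (p r) = 0 (Nat.find), 1 <= d <= J.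
y = Y^(e+d-J-1) r is a Selmer class of level n + 1 (selm_sub), p y = Y^(e-J-1) Y^d (p r) = 0. Y^J y = Y^(d-1) (Y^e r) = - Y^(d-1) H(Y) (p r) = - Y^(d-1) (p r), since
H(Y) = 1 + Y H1(Y) (H = C (H.coeff 0) + X * divX). By t1_sel Y^J y = 0: a contradiction to the minimality of d. -/
theorem selm_ker (h : Tow p q g gam del loc D) (n : ℕ) (r : R) (hr : Selm p gam loc D (n + 1) r)
    (hN : nrm p n gam r = 0) : p • r = 0 := by
  classical
  by_contra hpr
  obtain ⟨S, hS, hSg⟩ := selm_sub h (n + 1)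
  -- reduction to p^2 r = 0
  have hex : ∃ k : ℕ, p ^ k • r = 0 := h.torR r
  have hm0 := Nat.find_spec hex
  have hmin := fun k => Nat.find_min hex (m := k)
  generalize Nat.find hex = m at hm0 hmin
  have hm2 : 2 ≤ m := by
    rcases Nat.lt_or_ge m 2 with h1 | h1
    · exfalso
      interval_cases m
      · apply hpr
        rw [pow_zero, one_smul] at hm0
        rw [hm0, smul_zero]
      · exact hpr (by rwa [pow_one] at hm0)
    · exact h1
  obtain ⟨k, rfl⟩ := Nat.exists_eq_add_of_le' hm2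
  have hrS : r ∈ S := (hS r).2 hr
  obtain ⟨s, hsdef⟩ : ∃ s, s = p ^ k • r := ⟨_, rfl⟩
  have hsS : s ∈ S := by rw [hsdef]; exact S.smul_of_tower_mem _ hrS
  have hps : p • s ≠ 0 := by
    rw [hsdef, ← mul_smul, ← pow_succ']
    exact hmin (k + 1) (by omega)
  have hpps : p • (p • s) = 0 := by
    rw [hsdef, ← mul_smul, ← mul_smul, show p * p * p ^ k = p ^ (k + 2) by ring]
    exact hm0
  have hNs : nrm p n gam s = 0 := by
    rw [hsdef, map_nsmul, hN, smul_zero]
  -- stability under Y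
  obtain ⟨Y, hY⟩ : ∃ Y : R →ₗ[O] R, Y = gam - 1 := ⟨_, rfl⟩
  have hYS : ∀ z ∈ S, Y z ∈ S := by
    intro z hz
    rw [hY, LinearMap.sub_apply, Module.End.one_apply]
    exact S.sub_mem (hSg z hz) hz
  have hYkS : ∀ (j : ℕ) (z : R), z ∈ S → (Y ^ j) z ∈ S := by
    intro j
    induction j with
    | zero => intro z hz; simpa using hz
    | succ j ih =>
      intro z hz
      rw [pow_succ, Module.End.mul_apply]
      exact ih _ (hYS z hz)
  have hadd : ∀ (a b : ℕ) (z : R), (Y ^ a) ((Y ^ b) z) = (Y ^ (a + b)) z := by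
    intro a b z
    rw [pow_add, Module.End.mul_apply]
  have hsel : ∀ z ∈ S, p • z = 0 → (Y ^ J p (n + 1)) z = 0 := by
    intro z hz hz0
    have h1 := (hS z).1 hz
    rw [hY]
    exact (t1_sel h (n + 1) z hz0 h1.1).1 h1.2
  have hpsS : p • s ∈ S := S.smul_of_tower_mem _ hsS
  have hJ := hsel _ hpsS hpps
  have hJphi : J p (n + 1) + 1 ≤ p ^ (n + 1) - p ^ n := J_phi h.odd n
  obtain ⟨G, hG1, hG2⟩ := b3_nrm (O := O) h.pr n gam
  have hex2 : ∃ d : ℕ, (Y ^ d) (p • s) = 0 := ⟨_, hJ⟩
  have hd0 := Nat.find_spec hex2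
  have hdmin := fun k => Nat.find_min hex2 (m := k)
  have hdJ : Nat.find hex2 ≤ J p (n + 1) := Nat.find_min' hex2 hJ
  generalize Nat.find hex2 = d at hd0 hdmin hdJ
  have hd1 : 1 ≤ d := by
    rcases Nat.eq_zero_or_pos d with h1 | h1
    · exfalso
      rw [h1, pow_zero, Module.End.one_apply] at hd0
      exact hps hd0
    · exact h1
  obtain ⟨c, rfl⟩ := Nat.exists_eq_add_of_le' hd1
  apply hdmin c (by omega)
  obtain ⟨e, he⟩ : ∃ e, e = p ^ (n + 1) - p ^ n := ⟨_, rfl⟩
  rw [← he] at hJphi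
  have hG3 := hG2 s
  rw [← he, hNs, ← hY] at hG3
  -- y
  have hy1 : (Y ^ (e + c - J p (n + 1))) s ∈ S := hYkS _ _ hsS
  have hy2 : p • (Y ^ (e + c - J p (n + 1))) s = 0 := by
    rw [← map_nsmul, show e + c - J p (n + 1) = (e - J p (n + 1) - 1) + (c + 1) by omega, ← hadd, hd0, map_zero]
  have hy3 := hsel _ hy1 hy2
  rw [hadd, show J p (n + 1) + (e + c - J p (n + 1)) = c + e by omega, ← hadd] at hy3
  have hy4 : (Y ^ e) s = -(p • s + G (Y (p • s))) := by
    rw [eq_neg_iff_add_eq_zero, ← hG3]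
  rw [hy4, map_neg, neg_eq_zero, map_add] at hy3
  have hy5 : (Y ^ c) (G (Y (p • s))) = 0 := by
    have h1 : Commute (Y ^ c) G := by
      rw [hY]
      exact (hG1.symm).pow_left c
    rw [← Module.End.mul_apply, h1.eq, Module.End.mul_apply]
    have h2 : (Y ^ c) (Y (p • s)) = (Y ^ (c + 1)) (p • s) := by
      rw [pow_succ, Module.End.mul_apply]
    rw [h2, hd0, map_zero]
  rw [hy5, add_zero] at hy3
  exact hy3

end H35K
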