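import Mathlib
import Pool.Agent.Lib.H35K.B3

/-! # H35K, chunk B5 (M/L): the localisation map is onto -/

namespace H35K

variable {O R W : Type} [CommRing O] [AddCommGroup R] [Module O R] [AddCommGroup W] [Module O W]
  {p q g : ℕ} {gam : R →ₗ[O] R} {del : W →ₗ[O] W} {loc : Fin g → R →ₗ[O] W} {D : ℕ → Submodule O W}

theorem b5_lev_add {O Z : Type} [CommRing O] [AddCommGroup Z] [Module O Z] {p n : ℕ} {f : Z →ₗ[O] Z} {a b : Z}
    (ha : Lev p n f a) (hb : Lev p n f b) : Lev p n f (a + b) := by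
  unfold Lev at *
  rw [map_add, ha, hb]

theorem b5_lev_zero {O Z : Type} [CommRing O] [AddCommGroup Z] [Module O Z] (p n : ℕ) (f : Z →ₗ[O] Z) :
    Lev p n f (0 : Z) := by
  unfold Lev
  rw [map_zero]

theorem b5_lev_neg {O Z : Type} [CommRing O] [AddCommGroup Z] [Module O Z] {p n : ℕ} {f : Z →ₗ[O] Z} {a : Z}
    (ha : Lev p n f a) : Lev p n f (-a) := by
  unfold Lev at *
  rw [map_neg, ha]

theorem b5_lev_nsmul {O Z : Type} [CommRing O] [AddCommGroup Z] [Module O Z] {p n : ℕ} {f : Z →ₗ[O] Z} {a : Z} (k : ℕ)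
    (ha : Lev p n f a) : Lev p n f (k • a) := by
  unfold Lev at *
  rw [map_nsmul, ha]

theorem b5_lev_loc (h : Tow p q g gam del loc D) (n : ℕ) (v : Fin g) {r : R} (hr : Lev p n gam r) :
    Lev p n del (loc v r) := by
  unfold Lev at *
  rw [← a3_comm del gam (loc v) (h.comm v), hr]

/-- pairs of a global class of level n and a family of classes of points -/
def b5_A0 (p g n : ℕ) (gam : R →ₗ[O] R) (D : ℕ → Submodule O W) : AddSubgroup (R × (Fin g → W)) where
  carrier := {x | Lev p n gam x.1 ∧ ∀ v, x.2 v ∈ D n}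
  add_mem' := fun ha hb => ⟨b5_lev_add ha.1 hb.1, fun v => (D n).add_mem (ha.2 v) (hb.2 v)⟩
  zero_mem' := ⟨b5_lev_zero p n gam, fun _ => (D n).zero_mem⟩
  neg_mem' := fun ha => ⟨b5_lev_neg ha.1, fun v => (D n).neg_mem (ha.2 v)⟩

/-- the family `loc r + d` -/
def b5_phi (p n : ℕ) (gam : R →ₗ[O] R) (loc : Fin g → R →ₗ[O] W) (D : ℕ → Submodule O W) :
    b5_A0 p g n gam D →+ (Fin g → W) where
  toFun := fun x v => loc v x.1.1 + x.1.2 v
  map_zero' := by
    funext v
    simp
  map_add' := fun x y => by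
    funext v
    simp
    abel

theorem b5_phi_apply (p n : ℕ) (gam : R →ₗ[O] R) (loc : Fin g → R →ₗ[O] W) (D : ℕ → Submodule O W)
    (x : b5_A0 p g n gam D) (v : Fin g) : b5_phi p n gam loc D x v = loc v x.1.1 + x.1.2 v := rfl

theorem b5_div (h : Tow p q g gam del loc D) (n : ℕ) (x : b5_A0 p g n gam D) :
    ∃ y : b5_A0 p g n gam D, p • y = x := by
  obtain ⟨r', hr1, hr2⟩ := h.rdiv n x.1.1 x.2.1
  choose d' hd1 hd2 using fun v => h.ddiv n (x.1.2 v) (x.2.2 v)
  refine ⟨⟨(r', d'), hr1, hd1⟩, Subtype.ext (Prod.ext hr2 ?_)⟩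
  funext v
  exact hd2 v

/-- the count: the image of `phi` contains all families killed by p -/
theorem b5_count' (h : Tow p q g gam del loc D) (n : ℕ) (hf : {r : R | Selm p gam loc D n r}.Finite) :
    (∀ w : Fin g → W, (∀ v, Lev p n del (w v)) → p • w = 0 → ∃ x, b5_phi p n gam loc D x = w) ∧
      q ^ (2 * p ^ n) ≤ Nat.card {w : W // p • w = 0 ∧ Lev p n del w} := by
  have hq : 0 < q := lt_of_lt_of_le (by norm_num) h.q2
  set φ := b5_phi p n gam loc D with hφ
  -- the two groups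
  let A : AddSubgroup (b5_A0 p g n gam D) := φ.ker.comap (nsmulAddMonoidHom p)
  have hAmem : ∀ x, x ∈ A ↔ p • φ x = 0 := by
    intro x
    rw [← map_nsmul]
    rfl
  -- map 1
  let m1 : A →+ φ.ker :=
    { toFun := fun x => ⟨p • x.1, x.2⟩
      map_zero' := Subtype.ext (smul_zero p)
      map_add' := fun x y => Subtype.ext (smul_add p x.1 y.1) }
  have hm1 : Function.Surjective m1 := by
    intro b
    obtain ⟨y, hy⟩ := b5_div h n b.1
    refine ⟨⟨y, ?_⟩, Subtype.ext hy⟩
    show φ (p • y) = 0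
    rw [hy]
    exact b.2
  have e1 : Nat.card A = Nat.card φ.ker * Nat.card m1.ker := by
    rw [a2_first m1, AddMonoidHom.range_eq_top.mpr hm1]
    congr 1
    exact Nat.card_congr AddSubgroup.topEquiv.toEquiv
  have e2 : Nat.card m1.ker = q ^ (g * p ^ n) * (q ^ p ^ n) ^ g := by
    have e3 : Nat.card m1.ker = Nat.card ({r : R // p • r = 0 ∧ ((gam - 1) ^ (p ^ n)) r = 0}
        × (Fin g → {w : W // w ∈ D n ∧ p • w = 0})) := by
      refine Nat.card_congr ⟨fun x => ⟨⟨x.1.1.1.1, ?_, ?_⟩, fun v => ⟨x.1.1.1.2 v, x.1.1.2.2 v, ?_⟩⟩,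
        fun y => ⟨⟨⟨(y.1.1, fun v => (y.2 v).1), ?_, fun v => (y.2 v).2.1⟩, ?_⟩, ?_⟩, fun _ => rfl, fun _ => rfl⟩
      · have := congrArg (fun z : φ.ker => z.1.1.1) x.2
        exact this
      · have hz := congrArg (fun z : φ.ker => z.1.1.1) x.2
        exact (lev_p h.pr n gam _ hz).mp x.1.1.2.1
      · have := congrArg (fun z : φ.ker => z.1.1.2 v) x.2
        exact this
      · exact (lev_p h.pr n gam _ y.1.2.1).mpr y.1.2.2
      · show p • _ ∈ φ.ker
        have hz : p • (⟨(y.1.1, fun v => (y.2 v).1), (lev_p h.pr n gam _ y.1.2.1).mpr y.1.2.2,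
            fun v => (y.2 v).2.1⟩ : b5_A0 p g n gam D) = 0 :=
          Subtype.ext (Prod.ext y.1.2.1 (funext fun v => (y.2 v).2.2))
        rw [hz]
        exact φ.ker.zero_mem
      · refine Subtype.ext (Subtype.ext (Prod.ext y.1.2.1 (funext fun v => (y.2 v).2.2)))
    rw [e3, Nat.card_prod, Nat.card_fun, t1_card h n (p ^ n) le_rfl, h.dp n, Nat.card_fin]
  -- map 2
  let m2 : A →+ (Fin g → W) := φ.comp A.subtype
  have e4 : Nat.card A = Nat.card m2.range * Nat.card φ.ker := by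
    rw [a2_first m2]
    congr 1
    refine Nat.card_congr ⟨fun x => ⟨x.1.1, x.2⟩, fun y => ⟨⟨y.1, ?_⟩, y.2⟩, fun _ => rfl, fun _ => rfl⟩
    show φ (p • y.1) = 0
    rw [map_nsmul, y.2, smul_zero]
  have hkfin : Finite φ.ker := by
    have hinj : Function.Injective (fun x : φ.ker => (⟨x.1.1.1, by
        refine ⟨x.1.2.1, fun v => ?_⟩
        have hx := congrFun x.2 v
        have hx' : loc v x.1.1.1 + x.1.1.2 v = 0 := hx
        rw [eq_neg_of_add_eq_zero_left hx']
        exact (D n).neg_mem (x.1.2.2 v)⟩ : {r : R // Selm p gam loc D n r})) := by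
      intro x y hxy
      have h1 : x.1.1.1 = y.1.1.1 := congrArg Subtype.val hxy
      refine Subtype.ext (Subtype.ext (Prod.ext h1 (funext fun v => ?_)))
      have hx : loc v x.1.1.1 + x.1.1.2 v = 0 := congrFun x.2 v
      have hy : loc v y.1.1.1 + y.1.1.2 v = 0 := congrFun y.2 v
      rw [h1] at hx
      exact add_left_cancel (hx.trans hy.symm)
    haveI : Finite {r : R // Selm p gam loc D n r} := hf.to_subtype
    exact Finite.of_injective _ hinj
  have hkpos : 0 < Nat.card φ.ker := Nat.card_pos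
  have e5 : Nat.card m2.range = q ^ (g * p ^ n) * (q ^ p ^ n) ^ g := by
    have h1 : Nat.card φ.ker * Nat.card m2.range = Nat.card φ.ker * (q ^ (g * p ^ n) * (q ^ p ^ n) ^ g) := by
      rw [← e2, ← e1, e4, mul_comm]
    exact Nat.eq_of_mul_eq_mul_left hkpos h1
  -- the families killed by p
  obtain ⟨hWf, hWc⟩ := t1_leW h n
  have e6' : Nat.card {w : Fin g → W // p • w = 0 ∧ ∀ v, Lev p n del (w v)} =
      Nat.card {w : W // p • w = 0 ∧ Lev p n del w} ^ g := by
    have h1 : Nat.card {w : Fin g → W // p • w = 0 ∧ ∀ v, Lev p n del (w v)}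
        = Nat.card (Fin g → {w : W // p • w = 0 ∧ Lev p n del w}) := by
      refine Nat.card_congr ⟨fun x v => ⟨x.1 v, congrFun x.2.1 v, x.2.2 v⟩,
        fun y => ⟨fun v => (y v).1, funext fun v => (y v).2.1, fun v => (y v).2.2⟩, fun _ => rfl, fun _ => rfl⟩
    rw [h1, Nat.card_fun, Nat.card_fin]
  have e6 : Nat.card {w : Fin g → W // p • w = 0 ∧ ∀ v, Lev p n del (w v)} ≤ (q ^ (2 * p ^ n)) ^ g := by
    rw [e6']
    exact Nat.pow_le_pow_left hWc g
  have e7 : q ^ (g * p ^ n) * (q ^ p ^ n) ^ g = (q ^ (2 * p ^ n)) ^ g := by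
    rw [← pow_mul, ← pow_mul, ← pow_add]
    congr 1
    ring
  have hfinQ : ({w : Fin g → W | p • w = 0 ∧ ∀ v, Lev p n del (w v)} : Set (Fin g → W)).Finite := by
    have h1 : Finite (Fin g → {w : W // p • w = 0 ∧ Lev p n del w}) := inferInstance
    have h2 : Finite {w : Fin g → W // p • w = 0 ∧ ∀ v, Lev p n del (w v)} := by
      refine Finite.of_injective (β := Fin g → {w : W // p • w = 0 ∧ Lev p n del w})
        (fun x v => ⟨x.1 v, congrFun x.2.1 v, x.2.2 v⟩) ?_
      intro x y hxy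
      refine Subtype.ext (funext fun v => ?_)
      exact congrArg Subtype.val (congrFun hxy v)
    exact @Set.toFinite _ {w : Fin g → W | p • w = 0 ∧ ∀ v, Lev p n del (w v)} h2
  have hsub : (m2.range : Set (Fin g → W)) ⊆ {w : Fin g → W | p • w = 0 ∧ ∀ v, Lev p n del (w v)} := by
    rintro _ ⟨x, rfl⟩
    refine ⟨(hAmem x.1).mp x.2, fun v => ?_⟩
    exact b5_lev_add (b5_lev_loc h n v x.1.2.1) (h.dlev n _ (x.1.2.2 v))
  have c2 : (m2.range : Set (Fin g → W)).ncard = q ^ (g * p ^ n) * (q ^ p ^ n) ^ g := e5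
  refine ⟨fun w hw hpw => ?_, ?_⟩
  · have heq : (m2.range : Set (Fin g → W)) = {w : Fin g → W | p • w = 0 ∧ ∀ v, Lev p n del (w v)} := by
      refine Set.eq_of_subset_of_ncard_le hsub ?_ hfinQ
      have c1 : ({w : Fin g → W | p • w = 0 ∧ ∀ v, Lev p n del (w v)} : Set (Fin g → W)).ncard
          ≤ (q ^ (2 * p ^ n)) ^ g := e6
      rw [c2, e7]
      exact c1
    have hmem : w ∈ (m2.range : Set (Fin g → W)) := by
      rw [heq]
      exact ⟨hpw, hw⟩
    obtain ⟨x, hx⟩ := hmem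
    exact ⟨x.1, hx⟩
  · have h1 := Set.ncard_le_ncard hsub hfinQ
    rw [c2, e7] at h1
    have h2 : (q ^ (2 * p ^ n)) ^ g ≤ Nat.card {w : W // p • w = 0 ∧ Lev p n del w} ^ g := by
      rw [← e6']
      exact h1
    exact (Nat.pow_le_pow_iff_left h.gpos.ne').1 h2

theorem b5_count (h : Tow p q g gam del loc D) (n : ℕ) (hf : {r : R | Selm p gam loc D n r}.Finite) (w : Fin g → W)
    (hw : ∀ v, Lev p n del (w v)) (hpw : p • w = 0) : ∃ x, b5_phi p n gam loc D x = w :=
  (b5_count' h n hf).1 w hw hpw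

/-- So there are at least q^(2 p^n) local classes of level n killed by p. -/
theorem cardW (h : Tow p q g gam del loc D) (n : ℕ) (hf : {r : R | Selm p gam loc D n r}.Finite) :
    q ^ (2 * p ^ n) ≤ Nat.card {w : W // p • w = 0 ∧ Lev p n del w} := (b5_count' h n hf).2

theorem b5_all (h : Tow p q g gam del loc D) (n : ℕ) (hf : {r : R | Selm p gam loc D n r}.Finite) (k : ℕ) :
    ∀ w : Fin g → W, (∀ v, Lev p n del (w v)) → p ^ k • w = 0 → ∃ x, b5_phi p n gam loc D x = w := by
  induction k with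
  | zero =>
    intro w _ hk
    rw [pow_zero, one_smul] at hk
    exact ⟨0, by rw [map_zero, hk]⟩
  | succ k ih =>
    intro w hw hk
    obtain ⟨x, hx⟩ := ih (p • w) (fun v => b5_lev_nsmul p (hw v)) (by rw [smul_smul, ← pow_succ]; exact hk)
    obtain ⟨y, hy⟩ := b5_div h n x
    have hφ : ∀ (z : b5_A0 p g n gam D) v, Lev p n del (b5_phi p n gam loc D z v) := fun z v =>
      b5_lev_add (b5_lev_loc h n v z.2.1) (h.dlev n _ (z.2.2 v))
    obtain ⟨z, hz⟩ := b5_count h n hf (w - b5_phi p n gam loc D y)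
      (fun v => by
        have h1 := b5_lev_add (hw v) (b5_lev_neg (hφ y v))
        rw [← sub_eq_add_neg] at h1
        exact h1)
      (by rw [smul_sub, ← map_nsmul, hy, hx, sub_self])
    exact ⟨z + y, by rw [map_add, hz, sub_add_cancel]⟩

theorem b5_tor (h : Tow p q g gam del loc D) (w : Fin g → W) : ∃ k : ℕ, p ^ k • w = 0 := by
  choose k hk using fun v => h.torW (w v)
  refine ⟨∑ v, k v, funext fun v => ?_⟩
  have hle : k v ≤ ∑ v, k v := Finset.single_le_sum (fun _ _ => Nat.zero_le _) (Finset.mem_univ v)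
  obtain ⟨c, hc⟩ := Nat.exists_eq_add_of_le hle
  show p ^ (∑ v, k v) • w v = 0
  rw [hc, pow_add, mul_comm, ← smul_smul, hk v, smul_zero]

/-- Chunk B5 (M/L). If the group of Selmer classes of level n is finite, every family of local classes of level n is loc r modulo D n. PROOF. Q = families w of level n, I = those of
the form loc r + d, r of level n, d v in D n. I is divisible by p in itself (rdiv, ddiv). COUNT I[p]: A = {(r,d) : p (loc r + d) = 0}; (r,d) -> loc r + d maps A onto I[p] with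
kernel B = {(s,e) : loc s + e = 0}, which is in bijection with the Selmer classes; (r,d) -> (p r, p d) maps A onto B (divisibility) with kernel R_n[p] x (D n [p])^g. So
|A| = |B| |R_n[p]| |D n[p]|^g and |I[p]| = |A|/|B| = q^(g p^n) (q^(p^n))^g (t1_card with j = p^n and lev_p; dp) = q^(2 g p^n) >= |Q[p]| (t1_leW), so I[p] = Q[p] (finite). Then by induction on k:
w in Q with p^k w = 0 is in I: p w is in I, p w = p i with i in I, w - i is in Q[p] = I[p]. -/
theorem loc_onto (h : Tow p q g gam del loc D) (n : ℕ) (hf : {r : R | Selm p gam loc D n r}.Finite) (w : Fin g → W)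
    (hw : ∀ v, Lev p n del (w v)) : ∃ r : R, Lev p n gam r ∧ ∀ v, w v - loc v r ∈ D n := by
  obtain ⟨k, hk⟩ := b5_tor h w
  obtain ⟨x, hx⟩ := b5_all h n hf k w hw hk
  refine ⟨x.1.1, x.2.1, fun v => ?_⟩
  have h1 : loc v x.1.1 + x.1.2 v = w v := congrFun hx v
  rw [← h1, add_sub_cancel_left]
  exact x.2.2 v

/-- Chunk B5 (S/M). So the local module is divisible: put w in one place (g > 0), write it as loc v r + d, divide r and d by p. -/
theorem divW (h : Tow p q g gam del loc D) (n : ℕ) (hf : {r : R | Selm p gam loc D n r}.Finite) (w : W)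
    (hw : Lev p n del w) : ∃ w' : W, Lev p n del w' ∧ p • w' = w := by
  obtain ⟨r, hr, hd⟩ := loc_onto h n hf (fun _ => w) (fun _ => hw)
  let v0 : Fin g := ⟨0, h.gpos⟩
  obtain ⟨r', hr1, hr2⟩ := h.rdiv n r hr
  obtain ⟨d', hd1, hd2⟩ := h.ddiv n _ (hd v0)
  refine ⟨loc v0 r' + d', b5_lev_add (b5_lev_loc h n v0 hr1) (h.dlev n _ hd1), ?_⟩
  rw [smul_add, hd2, ← map_nsmul, hr2]
  abel

end H35K
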