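import Mathlib
import Pool.Agent.Lib.H35K.B4
import Pool.Agent.Lib.H35K.B5

/-! # H35K, chunk B6 (M): the norm of Selmer classes is onto -/

namespace H35K

variable {O R W : Type} [CommRing O] [AddCommGroup R] [Module O R] [AddCommGroup W] [Module O W]
  {p q g : ℕ} {gam : R →ₗ[O] R} {del : W →ₗ[O] W} {loc : Fin g → R →ₗ[O] W} {D : ℕ → Submodule O W}

theorem b6_locpow (h : Tow p q g gam del loc D) (v : Fin g) (m : ℕ) (r : R) :
    loc v ((gam ^ m) r) = (del ^ m) (loc v r) := by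
  induction m generalizing r with
  | zero => rfl
  | succ m ih =>
    rw [pow_succ, pow_succ]
    show loc v ((gam ^ m) (gam r)) = (del ^ m) (del (loc v r))
    rw [ih, h.comm]

theorem b6_nrm {Z : Type} [AddCommGroup Z] [Module O Z] (p n : ℕ) (f : Z →ₗ[O] Z) (z : Z) :
    nrm p n f z = ∑ i ∈ Finset.range p, (f ^ (i * p ^ n)) z := by
  unfold nrm
  rw [LinearMap.sum_apply]

theorem b6_locnrm (h : Tow p q g gam del loc D) (v : Fin g) (n : ℕ) (r : R) :
    loc v (nrm p n gam r) = nrm p n del (loc v r) := by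
  rw [b6_nrm, b6_nrm, map_sum]
  exact Finset.sum_congr rfl fun i _ => b6_locpow h v _ r

theorem b6_nrmT {Z : Type} [AddCommGroup Z] [Module O Z] (p n : ℕ) (f : Z →ₗ[O] Z) (z : Z) (hz : Lev p (n + 1) f z) :
    nrm p n f ((f ^ p ^ n) z) = nrm p n f z := by
  rw [b6_nrm, b6_nrm]
  have e1 : ∀ i ∈ Finset.range p, (f ^ (i * p ^ n)) ((f ^ p ^ n) z) = (f ^ ((i + 1) * p ^ n)) z := by
    intro i _
    rw [add_mul, one_mul, pow_add]
    rfl
  rw [Finset.sum_congr rfl e1]
  have e2 := Finset.sum_range_succ (fun i => (f ^ (i * p ^ n)) z) p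
  have e3 := Finset.sum_range_succ' (fun i => (f ^ (i * p ^ n)) z) p
  rw [e2] at e3
  have e4 : (f ^ (p * p ^ n)) z = z := by
    have e5 : p * p ^ n = p ^ (n + 1) := by ring
    rw [e5]
    exact hz
  have e6 : (f ^ (0 * p ^ n)) z = z := by
    rw [zero_mul, pow_zero]
    rfl
  rw [e4, e6] at e3
  exact (add_right_cancel e3).symm

theorem b6_nrmfix {Z : Type} [AddCommGroup Z] [Module O Z] (p n : ℕ) (f : Z →ₗ[O] Z) (z : Z) (hz : Lev p n f z) :
    nrm p n f z = p • z := by
  rw [b6_nrm]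
  have e1 : ∀ i : ℕ, (f ^ (i * p ^ n)) z = z := by
    intro i
    induction i with
    | zero => rw [zero_mul, pow_zero]; rfl
    | succ i ih =>
      rw [add_mul, one_mul, pow_add]
      show (f ^ (i * p ^ n)) ((f ^ p ^ n) z) = z
      have h1 : (f ^ p ^ n) z = z := hz
      rw [h1, ih]
  rw [Finset.sum_congr rfl fun i _ => e1 i, Finset.sum_const, Finset.card_range]

theorem b6_levpow {Z : Type} [AddCommGroup Z] [Module O Z] (p n m : ℕ) (f : Z →ₗ[O] Z) (z : Z) (hz : Lev p n f z) :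
    Lev p n f ((f ^ m) z) := by
  unfold Lev
  have e : (f ^ p ^ n) ((f ^ m) z) = (f ^ m) ((f ^ p ^ n) z) := by
    show (f ^ p ^ n * f ^ m) z = (f ^ m * f ^ p ^ n) z
    rw [← pow_add, ← pow_add, add_comm]
  have h1 : (f ^ p ^ n) z = z := hz
  rw [e, h1]

theorem b6_levsub {Z : Type} [AddCommGroup Z] [Module O Z] (p n : ℕ) (f : Z →ₗ[O] Z) {z w : Z} (hz : Lev p n f z)
    (hw : Lev p n f w) : Lev p n f (z - w) := by
  unfold Lev at *
  rw [map_sub, hz, hw]

theorem b6_dstpow (h : Tow p q g gam del loc D) (n m : ℕ) (w : W) (hw : w ∈ D n) : (del ^ m) w ∈ D n := by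
  induction m generalizing w with
  | zero => exact hw
  | succ m ih =>
    rw [pow_succ]
    exact ih _ (h.dst n w hw)

theorem b6_powzero {Z : Type} [AddCommGroup Z] [Module O Z] (f : Z →ₗ[O] Z) {a b : ℕ} (hab : a ≤ b) (z : Z)
    (hz : (f ^ a) z = 0) : (f ^ b) z = 0 := by
  obtain ⟨c, rfl⟩ := Nat.exists_eq_add_of_le hab
  rw [add_comm, pow_add]
  show (f ^ c) ((f ^ a) z) = 0
  rw [hz, map_zero]

/-- Chunk B6a (S/M). The kernel of the norm on the Selmer classes of level n + 1 has q^(g J(n+1)) elements: it is {r : p r = 0, (gam-1)^J r = 0}: selm_ker and t1_sel give one inclusion;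
conversely (gam-1)^J r = 0 and J <= p^(n+1) - p^n <= p^(n+1) (J_phi) give the level, the norm is 0 (nrm_p), t1_sel. Then t1_card. -/
theorem ker_card (h : Tow p q g gam del loc D) (n : ℕ) :
    Nat.card {r : R // Selm p gam loc D (n + 1) r ∧ nrm p n gam r = 0} = q ^ (g * J p (n + 1)) := by
  have hJ := J_phi h.odd n
  have hle : J p (n + 1) ≤ p ^ (n + 1) - p ^ n := by omega
  have hle2 : J p (n + 1) ≤ p ^ (n + 1) := hle.trans (Nat.sub_le _ _)
  rw [← t1_card h (n + 1) (J p (n + 1)) hle2]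
  have key : ∀ r : R, (Selm p gam loc D (n + 1) r ∧ nrm p n gam r = 0) ↔ (p • r = 0 ∧ ((gam - 1) ^ J p (n + 1)) r = 0) := by
    intro r
    constructor
    · rintro ⟨h1, h2⟩
      have h3 := selm_ker h n r h1 h2
      exact ⟨h3, (t1_sel h (n + 1) r h3 h1.1).1 h1.2⟩
    · rintro ⟨h1, h2⟩
      have h3 : Lev p (n + 1) gam r := (lev_p h.pr (n + 1) gam r h1).2 (b6_powzero _ hle2 r h2)
      refine ⟨⟨h3, (t1_sel h (n + 1) r h1 h3).2 h2⟩, ?_⟩
      rw [nrm_p h.pr n gam r h1]
      exact b6_powzero _ hle r h2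
  exact Nat.card_congr (Equiv.subtypeEquivRight key)

/-- Chunk B6b (M). If the group of Selmer classes of level n + 1 is finite, the norm to level n is onto. PROOF. y Selmer of level n; y = N r, r of level n + 1 (nrm_ontoR). For every v:
N (loc v r) = loc v y is in D n; write loc v y = p d = N d, d in D n (ddiv; N d = p d since d is of level n; d is in D (n+1) by dmono). So w v = loc v r - d v has norm 0 and level n + 1:
w v = T u v - u v, T = del^(p^n) (nrm_zeroW, divW). loc_onto: r' of level n + 1 with u v - loc v r' in D (n+1). Then r - (gam^(p^n) r' - r') has norm y (N T = N at level n + 1) and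
loc v of it is d v + (T - 1)(u v - loc v r') in D (n+1) (dst, dmono). -/
theorem selm_onto (h : Tow p q g gam del loc D) (n : ℕ) (hf : {r : R | Selm p gam loc D (n + 1) r}.Finite) (y : R)
    (hy : Selm p gam loc D n y) : ∃ r : R, Selm p gam loc D (n + 1) r ∧ nrm p n gam r = y := by
  obtain ⟨r, hr, hNr⟩ := nrm_ontoR h n y hy.1
  have h1 : ∀ v, ∃ d ∈ D n, p • d = loc v y := fun v => h.ddiv n _ (hy.2 v)
  choose d hd hpd using h1
  have hlr : ∀ v, Lev p (n + 1) del (loc v r) := by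
    intro v
    have h2 : (gam ^ p ^ (n + 1)) r = r := hr
    show (del ^ p ^ (n + 1)) (loc v r) = loc v r
    rw [← b6_locpow h, h2]
  have hd' : ∀ v, d v ∈ D (n + 1) := fun v => h.dmono n (hd v)
  have hz : ∀ v, nrm p n del (loc v r - d v) = 0 := by
    intro v
    rw [map_sub, ← b6_locnrm h, hNr, b6_nrmfix p n del (d v) (h.dlev n _ (hd v)), hpd, sub_self]
  have hzl : ∀ v, Lev p (n + 1) del (loc v r - d v) := fun v =>
    b6_levsub p (n + 1) del (hlr v) (h.dlev (n + 1) _ (hd' v))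
  have h2 : ∀ v, ∃ u : W, Lev p (n + 1) del u ∧ (del ^ p ^ n) u - u = loc v r - d v := fun v =>
    nrm_zeroW h n (cardW h (n + 1) hf) (fun z hz => divW h (n + 1) hf z hz) _ (hzl v) (hz v)
  choose u hul hu using h2
  obtain ⟨r', hr', hur'⟩ := loc_onto h (n + 1) hf u hul
  refine ⟨r - ((gam ^ p ^ n) r' - r'), ⟨?_, ?_⟩, ?_⟩
  · exact b6_levsub p (n + 1) gam hr (b6_levsub p (n + 1) gam (b6_levpow p (n + 1) _ gam r' hr') hr')
  · intro v
    have e : loc v (r - ((gam ^ p ^ n) r' - r')) = d v + ((del ^ p ^ n) (u v - loc v r') - (u v - loc v r')) := by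
      rw [map_sub, map_sub, b6_locpow h, map_sub]
      have h3 := hu v
      have h4 : loc v r = d v + ((del ^ p ^ n) (u v) - u v) := by
        rw [h3]
        abel
      rw [h4]
      abel
    rw [e]
    exact (D (n + 1)).add_mem (hd' v) ((D (n + 1)).sub_mem (b6_dstpow h (n + 1) _ _ (hur' v)) (hur' v))
  · rw [map_sub, map_sub, b6_nrmT p n gam r' hr', sub_self, sub_zero, hNr]

end H35K
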