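import Mathlib
import Pool.Agent.Lib.H35K.B6

/-! # H35K, chunk B7 (M): the order of the Selmer group -/

namespace H35K

variable {O R W : Type} [CommRing O] [AddCommGroup R] [Module O R] [AddCommGroup W] [Module O W]
  {p q g : ℕ} {gam : R →ₗ[O] R} {del : W →ₗ[O] W} {loc : Fin g → R →ₗ[O] W} {D : ℕ → Submodule O W}

theorem b7_zero (h : Tow p q g gam del loc D) (r : R) (hr : Selm p gam loc D 0 r) : r = 0 := by
  classical
  obtain ⟨S, hS, -⟩ := selm_sub h 0
  by_contra hne
  have hex := h.torR r
  have hk := Nat.find_spec hex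
  rcases Nat.eq_zero_or_pos (Nat.find hex) with h0 | h0
  · rw [h0, pow_zero, one_smul] at hk
    exact hne hk
  · have hlt := Nat.find_min hex (m := Nat.find hex - 1) (by omega)
    have hS1 : p ^ (Nat.find hex - 1) • r ∈ S := S.smul_of_tower_mem _ ((hS r).2 hr)
    have hS2 := (hS _).1 hS1
    apply hlt
    refine h.inj _ ?_ ?_ hS2.2
    · rw [smul_smul, ← pow_succ', Nat.sub_add_cancel h0]
      exact hk
    · have h3 : (gam ^ p ^ 0) (p ^ (Nat.find hex - 1) • r) = p ^ (Nat.find hex - 1) • r := hS2.1
      rwa [pow_zero, pow_one] at h3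

theorem b7_fin {A B : Type} [AddCommGroup A] [AddCommGroup B] (f : A →+ B) (h1 : Finite f.ker) (h2 : Finite B) : Finite A := by
  have hr : Finite f.range := Subtype.finite
  have hq : Finite (A ⧸ f.ker) := Finite.of_equiv _ (QuotientAddGroup.quotientKerEquivRange f).symm.toEquiv
  exact Finite.of_equiv _ (AddSubgroup.addGroupEquivQuotientProdAddSubgroup (s := f.ker)).symm

/-- Chunk B7 (M). The Selmer group of level n is finite of order q^(g (J 0 + .. + J n)). PROOF by induction. n = 0: a nonzero Selmer class of level 0 has a multiple r <> 0 with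
p r = 0 (torR), still Selmer, so r = 0 by inj: the group is trivial (J 0 = 0). n -> n + 1: the norm maps the Selmer classes of level n + 1 to those of level n (selm_nrm) with
finite kernel (ker_card), so they are finite; it is onto (selm_onto); |S| = |kernel| |image|. -/
theorem main (h : Tow p q g gam del loc D) (n : ℕ) :
    {r : R | Selm p gam loc D n r}.Finite ∧
      Nat.card {r : R // Selm p gam loc D n r} = q ^ (g * ∑ i ∈ Finset.range (n + 1), J p i) := by
  induction n with
  | zero =>
    obtain ⟨S, hS, -⟩ := selm_sub h 0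
    have h0 : Selm p gam loc D 0 (0 : R) := (hS 0).1 S.zero_mem
    have e1 : {r : R | Selm p gam loc D 0 r} = {0} := by
      ext r
      constructor
      · intro hr
        exact b7_zero h r hr
      · rintro rfl
        exact h0
    refine ⟨by rw [e1]; exact Set.finite_singleton _, ?_⟩
    have hJ : J p 0 = 0 := J_zero (by have := h.odd; omega)
    rw [zero_add, Finset.sum_range_one, hJ, mul_zero, pow_zero, Nat.card_eq_one_iff_unique]
    refine ⟨⟨fun a b => Subtype.ext ((b7_zero h _ a.2).trans (b7_zero h _ b.2).symm)⟩, ⟨⟨0, h0⟩⟩⟩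
  | succ n ih =>
    obtain ⟨ihf, ihc⟩ := ih
    obtain ⟨S, hS, -⟩ := selm_sub h n
    obtain ⟨S', hS', -⟩ := selm_sub h (n + 1)
    obtain ⟨N, hN⟩ : ∃ N : S' →+ S, ∀ x : S', ((N x : S) : R) = nrm p n gam (x : R) := by
      refine ⟨(((nrm p n gam).comp S'.subtype).codRestrict S fun x => ?_).toAddMonoidHom, fun x => rfl⟩
      exact (hS _).2 (selm_nrm h n _ ((hS' _).1 x.2))
    have hfS : Finite S := by
      have e1 : (S : Set R) = {r : R | Selm p gam loc D n r} := Set.ext fun r => hS r
      have e2 : (S : Set R).Finite := by rw [e1]; exact ihf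
      exact e2.to_subtype
    have hcS : Nat.card S = q ^ (g * ∑ i ∈ Finset.range (n + 1), J p i) := by
      rw [← ihc]
      exact Nat.card_congr (Equiv.subtypeEquivRight hS)
    have hqpos : 0 < q := by have := h.q2; omega
    have ek : Nat.card N.ker = q ^ (g * J p (n + 1)) := by
      rw [← ker_card h n]
      refine Nat.card_congr ⟨fun x => ⟨x.1.1, (hS' _).1 x.1.2, ?_⟩, fun r => ⟨⟨r.1, (hS' _).2 r.2.1⟩, ?_⟩, fun _ => rfl, fun _ => rfl⟩
      · have h2 : N x.1 = 0 := x.2
        rw [← hN, h2]
        rfl
      · refine Subtype.ext ?_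
        rw [hN]
        exact r.2.2
    have hfk : Finite N.ker := by
      refine Nat.finite_of_card_ne_zero ?_
      rw [ek]
      positivity
    have hfS' : Finite S' := b7_fin N hfk hfS
    have e1 : (S' : Set R) = {r : R | Selm p gam loc D (n + 1) r} := Set.ext fun r => hS' r
    have hfin : {r : R | Selm p gam loc D (n + 1) r}.Finite := by
      rw [← e1]
      exact Set.toFinite _
    refine ⟨hfin, ?_⟩
    have honto : Nat.card N.range = Nat.card S := by
      refine Nat.card_congr ⟨fun x => x.1, fun y => ⟨y, ?_⟩, fun _ => rfl, fun _ => rfl⟩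
      obtain ⟨r, hr, hNr⟩ := selm_onto h n hfin (y : R) ((hS _).1 y.2)
      refine ⟨⟨r, (hS' r).2 hr⟩, Subtype.ext ?_⟩
      rw [hN]
      exact hNr
    have e3 : Nat.card {r : R // Selm p gam loc D (n + 1) r} = Nat.card S' :=
      (Nat.card_congr (Equiv.subtypeEquivRight hS')).symm
    rw [e3, a2_first N, honto, hcS, ek, ← pow_add, Finset.sum_range_succ _ (n + 1), mul_add]

end H35K
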